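import Pool.Agent.Helper37.RS.Full8

/-!
# The arithmetic for arbitrary index sets
-/

set_option autoImplicit false

namespace Pool.Agent.Helper37.RG

open Finset
open Pool.Agent.Helper37.RS (per_d nat_sub_one)

theorem weight_le {κ : Type*} (D : Finset κ) (σ : κ → ℚ) (hσ : ∀ d, 0 ≤ σ d) (hs : 0 < ∑ d ∈ D, σ d)
    (C : Finset κ) (hC : C ⊆ D) (m : ℕ) (hm : C.card + 1 ≤ m) :
    ∑ d ∈ C, 2 * σ d / (∑ d ∈ D, σ d + σ d) ≤ 2 * (1 - 1 / m) := by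
  set s := ∑ d ∈ D, σ d with hsdef
  have hm1 : (1 : ℚ) ≤ m := by exact_mod_cast (by omega : 1 ≤ m)
  have hm0 : (0 : ℚ) < m := by linarith
  have hCm : (C.card : ℚ) ≤ m - 1 := by
    have : (C.card : ℚ) + 1 ≤ m := by exact_mod_cast hm
    linarith
  have hCs : ∑ d ∈ C, σ d ≤ s := sum_le_sum_of_subset_of_nonneg hC fun d _ _ => hσ d
  have h1 : ∀ d ∈ C, 2 * σ d / (s + σ d) ≤ 2 / m ^ 2 + 2 * (m - 1) ^ 2 / (m ^ 2 * s) * σ d := by
    intro d _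
    have h2 := hσ d
    have h3 : 0 < s + σ d := by linarith
    rw [div_le_iff₀ h3]
    have h4 : (2 / m ^ 2 + 2 * (m - 1) ^ 2 / (m ^ 2 * s) * σ d) * (s + σ d) - 2 * σ d
        = 2 / (m ^ 2 * s) * (s - (m - 1) * σ d) ^ 2 := by
      field_simp
      ring
    have h5 : 0 ≤ 2 / (m ^ 2 * s) * (s - (m - 1) * σ d) ^ 2 := by positivity
    linarith
  refine (sum_le_sum h1).trans ?_
  rw [sum_add_distrib, ← mul_sum, sum_const, nsmul_eq_mul]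
  have h6 : (C.card : ℚ) * (2 / m ^ 2) ≤ (m - 1) * (2 / m ^ 2) :=
    mul_le_mul_of_nonneg_right hCm (by positivity)
  have h7 : 2 * (m - 1) ^ 2 / (m ^ 2 * s) * ∑ d ∈ C, σ d ≤
      2 * (m - 1) ^ 2 / (m ^ 2 * s) * s :=
    mul_le_mul_of_nonneg_left hCs (by positivity)
  have h8 : (m - 1) * (2 / m ^ 2) + 2 * (m - 1) ^ 2 / (m ^ 2 * s) * s
      = 2 * (1 - 1 / (m : ℚ)) := by
    field_simp
    ring
  linarith

/-- the arithmetic -/
theorem arith {κ : Type*} [DecidableEq κ] (D : Finset κ) (σ π : κ → ℕ) (u v E : ℕ) (huv : u + v = ∑ d ∈ D, σ d)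
    (hs : 0 < ∑ d ∈ D, σ d) (hE : (D.filter (fun d => 0 < σ d)).card ≤ E + 1) :
    0 ≤ ∑ d ∈ D, ((σ d : ℚ) ^ 2 - 2 * σ d * π d +
      2 * (σ d : ℚ) / (∑ d ∈ D, (σ d : ℚ) + σ d) * ((π d : ℚ) * (π d - 1)))
      + (u : ℚ) ^ 2 + (v : ℚ) ^ 2 + 2 * E := by
  classical
  set T := D.filter (fun d => 0 < σ d) with hT
  set s : ℚ := ∑ d ∈ D, (σ d : ℚ) with hsd
  have hs' : 0 < s := by rw [hsd]; exact_mod_cast hs
  have huv' : (u : ℚ) + v = s := by rw [hsd]; exact_mod_cast huv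
  have hTD : T ⊆ D := filter_subset _ _
  have h1 : ∑ d ∈ D, ((σ d : ℚ) ^ 2 - 2 * σ d * π d +
      2 * (σ d : ℚ) / (s + σ d) * ((π d : ℚ) * (π d - 1))) =
      ∑ d ∈ T, ((σ d : ℚ) ^ 2 - 2 * σ d * π d +
      2 * (σ d : ℚ) / (s + σ d) * ((π d : ℚ) * (π d - 1))) := by
    symm
    apply sum_subset hTD
    intro d hd hdT
    have : σ d = 0 := by
      by_contra hcon
      exact hdT (mem_filter.mpr ⟨hd, Nat.pos_of_ne_zero hcon⟩)
    rw [this]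
    simp
  have hsT : s = ∑ d ∈ T, (σ d : ℚ) := by
    rw [hsd]
    symm
    apply sum_subset hTD
    intro d hd hdT
    have : σ d = 0 := by
      by_contra hcon
      exact hdT (mem_filter.mpr ⟨hd, Nat.pos_of_ne_zero hcon⟩)
    rw [this]
    simp
  rw [h1]
  have hle : ∀ d ∈ T, (σ d : ℚ) ≤ s := fun d hd => by
    rw [hsT]
    exact single_le_sum (f := fun d => (σ d : ℚ)) (fun _ _ => Nat.cast_nonneg _) hd
  have hpos : ∀ d ∈ T, (1 : ℚ) ≤ σ d := fun d hd => by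
    exact_mod_cast (mem_filter.mp hd).2
  rcases Nat.lt_or_ge 1 T.card with h2 | h2
  · have h3 : ∑ d ∈ T, (1 / 2 * (σ d : ℚ) ^ 2 - 1 / 2 * s * σ d - σ d - 1 / 4) ≤
        ∑ d ∈ T, ((σ d : ℚ) ^ 2 - 2 * σ d * π d +
        2 * (σ d : ℚ) / (s + σ d) * ((π d : ℚ) * (π d - 1))) :=
      sum_le_sum fun d hd => per_d _ _ _ (by linarith [hpos d hd]) (hle d hd)
    have h4 : ∑ d ∈ T, (-(1 / 2 * s * σ d) - 3 / 4) ≤
        ∑ d ∈ T, (1 / 2 * (σ d : ℚ) ^ 2 - 1 / 2 * s * σ d - σ d - 1 / 4) :=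
      sum_le_sum fun d _ => by nlinarith [sq_nonneg ((σ d : ℚ) - 1)]
    have h5 : ∑ d ∈ T, (-(1 / 2 * s * (σ d : ℚ)) - 3 / 4) =
        -(1 / 2 * s * s) - 3 / 4 * T.card := by
      rw [sum_sub_distrib, sum_neg_distrib, ← mul_sum, ← hsT, sum_const, nsmul_eq_mul]
      ring
    have h6 : (T.card : ℚ) ≤ E + 1 := by exact_mod_cast hE
    have h7 : (2 : ℚ) ≤ T.card := by exact_mod_cast h2
    have h8 : 1 / 2 * s * s ≤ (u : ℚ) ^ 2 + (v : ℚ) ^ 2 := by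
      rw [← huv']
      nlinarith [sq_nonneg ((u : ℚ) - v)]
    linarith
  · have h3 : T.card = 1 := by
      apply le_antisymm h2
      rw [Nat.one_le_iff_ne_zero]
      intro h0
      rw [card_eq_zero] at h0
      rw [h0, sum_empty] at hsT
      linarith
    obtain ⟨d₀, hd₀⟩ := card_eq_one.mp h3
    rw [hd₀, sum_singleton] at hsT ⊢
    have h4 : 2 * (σ d₀ : ℚ) / (s + σ d₀) = 1 := by
      rw [← hsT]
      field_simp
      ring
    rw [h4, ← hsT]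
    have h5 : (u : ℚ) ≤ u ^ 2 := by exact_mod_cast Nat.le_self_pow two_ne_zero u
    have h6 : (v : ℚ) ≤ v ^ 2 := by exact_mod_cast Nat.le_self_pow two_ne_zero v
    have h7 : (0 : ℚ) ≤ ((π d₀ : ℤ) - σ d₀ : ℤ) * (((π d₀ : ℤ) - σ d₀ : ℤ) - 1) := by
      have : (0 : ℤ) ≤ ((π d₀ : ℤ) - σ d₀) * (((π d₀ : ℤ) - σ d₀) - 1) := by
        rcases le_or_gt ((π d₀ : ℤ) - σ d₀) 0 with h | h
        · exact mul_nonneg_of_nonpos_of_nonpos h (by linarith)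
        · exact mul_nonneg h.le (by linarith)
      exact_mod_cast this
    push_cast at h7
    rw [← hsT] at h7
    have h8 : (0 : ℚ) ≤ E := Nat.cast_nonneg E
    nlinarith

/-- the remaining terms -/
def RR {κ : Type*} (D : Finset κ) (σ π : κ → ℕ) (u v E : ℕ) : ℚ :=
  ∑ d ∈ D, ((σ d : ℚ) ^ 2 - 2 * σ d * π d +
      2 * (σ d : ℚ) / (∑ d ∈ D, (σ d : ℚ) + σ d) * ((π d : ℚ) * (π d - 1)))
      + (u : ℚ) ^ 2 + (v : ℚ) ^ 2 + 2 * E

theorem arith2 {κ : Type*} [DecidableEq κ] (D : Finset κ) (σ π : κ → ℕ) (i₀ : κ) (u v E n : ℕ) (huv : u + v = ∑ d ∈ D, σ d)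
    (h1D : i₀ ∈ D) (hσ1 : σ i₀ = 2 * n) (hn : 0 < n)
    (hE : (D.filter (fun d => 0 < σ d)).card ≤ E + 1) :
    2 * (n : ℚ) ^ 2 - 2 * n ≤ RR D σ π u v E ∧
    (1 ≤ E → 2 * (n : ℚ) ^ 2 - 2 * n + 1 ≤ RR D σ π u v E) ∧
    (π i₀ ≤ n → 2 * (n : ℚ) ^ 2 + 2 * E ≤ RR D σ π u v E) := by
  classical
  rw [RR]
  set T := D.filter (fun d => 0 < σ d) with hT
  set s : ℚ := ∑ d ∈ D, (σ d : ℚ) with hsd
  have huv' : (u : ℚ) + v = s := by rw [hsd]; exact_mod_cast huv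
  have hTD : T ⊆ D := filter_subset _ _
  have h1 : ∑ d ∈ D, ((σ d : ℚ) ^ 2 - 2 * σ d * π d +
      2 * (σ d : ℚ) / (s + σ d) * ((π d : ℚ) * (π d - 1))) =
      ∑ d ∈ T, ((σ d : ℚ) ^ 2 - 2 * σ d * π d +
      2 * (σ d : ℚ) / (s + σ d) * ((π d : ℚ) * (π d - 1))) := by
    symm
    apply sum_subset hTD
    intro d hd hdT
    have : σ d = 0 := by
      by_contra hcon
      exact hdT (mem_filter.mpr ⟨hd, Nat.pos_of_ne_zero hcon⟩)
    rw [this]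
    simp
  have hsT : s = ∑ d ∈ T, (σ d : ℚ) := by
    rw [hsd]
    symm
    apply sum_subset hTD
    intro d hd hdT
    have : σ d = 0 := by
      by_contra hcon
      exact hdT (mem_filter.mpr ⟨hd, Nat.pos_of_ne_zero hcon⟩)
    rw [this]
    simp
  rw [h1]
  have hle : ∀ d ∈ T, (σ d : ℚ) ≤ s := fun d hd => by
    rw [hsT]
    exact single_le_sum (f := fun d => (σ d : ℚ)) (fun _ _ => Nat.cast_nonneg _) hd
  have hpos : ∀ d ∈ T, (1 : ℚ) ≤ σ d := fun d hd => by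
    exact_mod_cast (mem_filter.mp hd).2
  have h1T : i₀ ∈ T := mem_filter.mpr ⟨h1D, by rw [hσ1]; omega⟩
  have hn1 : (1 : ℚ) ≤ n := by exact_mod_cast hn
  have hσ1' : (σ i₀ : ℚ) = 2 * n := by rw [hσ1]; push_cast; ring
  have hs0 : 0 < s := by linarith [hle i₀ h1T, hpos i₀ h1T]
  have huv2 : 1 / 2 * s * s ≤ (u : ℚ) ^ 2 + (v : ℚ) ^ 2 := by
    rw [← huv']
    nlinarith [sq_nonneg ((u : ℚ) - v)]
  have hE' : (T.card : ℚ) ≤ E + 1 := by exact_mod_cast hE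
  have hE0 : (0 : ℚ) ≤ E := Nat.cast_nonneg E
  have hper : ∀ d ∈ T, (1 / 2 * (σ d : ℚ) ^ 2 - 1 / 2 * s * σ d - σ d - 1 / 4) ≤
      ((σ d : ℚ) ^ 2 - 2 * σ d * π d +
        2 * (σ d : ℚ) / (s + σ d) * ((π d : ℚ) * (π d - 1))) :=
    fun d hd => per_d _ _ _ (by linarith [hpos d hd]) (hle d hd)
  have hT' := card_erase_add_one h1T
  set T' := T.erase i₀ with hT'd
  have hT'c : (T'.card : ℚ) + 1 = T.card := by exact_mod_cast hT'
  have hT'T : T' ⊆ T := erase_subset _ _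
  have hsplit : ∀ f : κ → ℚ, ∑ d ∈ T, f d = f i₀ + ∑ d ∈ T', f d := fun f =>
    (add_sum_erase T f h1T).symm
  have hs' : s = 2 * n + ∑ d ∈ T', (σ d : ℚ) := by
    rw [← hσ1', hsT]
    exact hsplit _
  have key : T'.card = 0 ∨ 1 ≤ T'.card := by omega
  have hgen : 1 ≤ T'.card → 2 * (n : ℚ) ^ 2 - 2 * n + 1 ≤
      ∑ d ∈ T, ((σ d : ℚ) ^ 2 - 2 * σ d * π d +
        2 * (σ d : ℚ) / (s + σ d) * ((π d : ℚ) * (π d - 1))) +
        (u : ℚ) ^ 2 + (v : ℚ) ^ 2 + 2 * E := by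
    intro h2
    have h3 := sum_le_sum hper
    have h4 : ∑ d ∈ T, (1 / 2 * (σ d : ℚ) ^ 2 - 1 / 2 * s * σ d - σ d - 1 / 4) =
        ∑ d ∈ T, (1 / 2 * (σ d : ℚ) ^ 2 - σ d - 1 / 4) - 1 / 2 * s * s := by
      have : 1 / 2 * s * s = ∑ d ∈ T, 1 / 2 * s * (σ d : ℚ) := by
        rw [← mul_sum, ← hsT]
      rw [this, ← sum_sub_distrib]
      exact sum_congr rfl fun d _ => by ring
    have h5 : ∑ d ∈ T', (-(3 / 4) : ℚ) ≤ ∑ d ∈ T', (1 / 2 * (σ d : ℚ) ^ 2 - σ d - 1 / 4) :=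
      sum_le_sum fun d _ => by nlinarith [sq_nonneg ((σ d : ℚ) - 1)]
    rw [sum_const, nsmul_eq_mul] at h5
    rw [h4, hsplit (fun d => 1 / 2 * (σ d : ℚ) ^ 2 - σ d - 1 / 4)] at h3
    simp only [hσ1'] at h3
    have h6 : (1 : ℚ) ≤ T'.card := by exact_mod_cast h2
    nlinarith
  have hone : T'.card = 0 → 2 * (n : ℚ) ^ 2 - 2 * n + 2 * E ≤
      ∑ d ∈ T, ((σ d : ℚ) ^ 2 - 2 * σ d * π d +
        2 * (σ d : ℚ) / (s + σ d) * ((π d : ℚ) * (π d - 1))) +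
        (u : ℚ) ^ 2 + (v : ℚ) ^ 2 + 2 * E := by
    intro h2
    rw [card_eq_zero] at h2
    rw [hsplit, h2, sum_empty, add_zero]
    rw [h2, sum_empty, add_zero] at hs'
    rw [hσ1', hs']
    have h4 : 2 * (2 * (n : ℚ)) / (2 * n + 2 * n) = 1 := by
      field_simp
      ring
    rw [h4]
    rw [hs'] at huv2
    have h7 : (0 : ℚ) ≤ ((π i₀ : ℤ) - 2 * n : ℤ) * (((π i₀ : ℤ) - 2 * n : ℤ) - 1) := by
      have : (0 : ℤ) ≤ ((π i₀ : ℤ) - 2 * n) * (((π i₀ : ℤ) - 2 * n) - 1) := by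
        rcases le_or_gt ((π i₀ : ℤ) - 2 * n) 0 with h | h
        · exact mul_nonneg_of_nonpos_of_nonpos h (by linarith)
        · exact mul_nonneg h.le (by linarith)
      exact_mod_cast this
    push_cast at h7
    nlinarith
  refine ⟨?_, ?_, ?_⟩
  · rcases key with h2 | h2
    · have := hone h2
      linarith
    · have := hgen h2
      linarith
  · intro hE1
    have hE1' : (1 : ℚ) ≤ E := by exact_mod_cast hE1
    rcases key with h2 | h2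
    · have := hone h2
      linarith
    · exact hgen h2
  · intro hπ
    have hπ' : (π i₀ : ℚ) ≤ n := by exact_mod_cast hπ
    have h3 : ∑ d ∈ T', (1 / 2 * (σ d : ℚ) ^ 2 - 1 / 2 * s * σ d - σ d - 1 / 4) ≤
        ∑ d ∈ T', ((σ d : ℚ) ^ 2 - 2 * σ d * π d +
        2 * (σ d : ℚ) / (s + σ d) * ((π d : ℚ) * (π d - 1))) :=
      sum_le_sum fun d hd => hper d (hT'T hd)
    have h4 : ∑ d ∈ T', (1 / 2 * (σ d : ℚ) ^ 2 - 1 / 2 * s * σ d - σ d - 1 / 4) =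
        ∑ d ∈ T', (1 / 2 * (σ d : ℚ) ^ 2 + n * σ d - σ d - 1 / 4) -
        (1 / 2 * s + n) * ∑ d ∈ T', (σ d : ℚ) := by
      have : (1 / 2 * s + n) * ∑ d ∈ T', (σ d : ℚ) =
          ∑ d ∈ T', (1 / 2 * s + n) * (σ d : ℚ) := mul_sum _ _ _
      rw [this, ← sum_sub_distrib]
      exact sum_congr rfl fun d _ => by ring
    have h5 : (0 : ℚ) ≤ ∑ d ∈ T', (1 / 2 * (σ d : ℚ) ^ 2 + n * σ d - σ d - 1 / 4) :=
      sum_nonneg fun d hd => by nlinarith [hpos d (hT'T hd)]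
    have h6 : (0 : ℚ) ≤ (2 * (n : ℚ)) ^ 2 - 2 * (2 * n) * π i₀ +
        2 * (2 * (n : ℚ)) / (s + 2 * n) * ((π i₀ : ℚ) * (π i₀ - 1)) := by
      have e1 := nat_sub_one (π i₀)
      have e2 : 0 ≤ 2 * (2 * (n : ℚ)) / (s + 2 * n) := by positivity
      have e3 := mul_nonneg e2 e1
      nlinarith
    rw [hsplit]
    rw [hσ1']
    rw [h4] at h3
    have e4 : ∑ d ∈ T', (σ d : ℚ) = s - 2 * n := by linarith
    rw [e4] at h3
    nlinarith

end Pool.Agent.Helper37.RG
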