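import Pool.Agent.Helper37.RS.Base

/-!
# The bound by the classes modulo `1` and modulo the multipliers
-/

set_option autoImplicit false

namespace Pool.Agent.Helper37.RG

open Finset
open scoped Pointwise
open Pool.Agent.Helper37.RS (den_dvd int_sub val card_le bot cls top top_card card_add_self)

theorem classes (A X : Finset ℚ) (q : ℕ) (c : ℚ → ℚ) (hX : X ⊆ A) (hA : ∀ a ∈ A, a.den ∣ q)
    (hc : ∀ b ∈ X, c b ∈ A ∧ c b ≠ 0 ∧ Nat.Coprime b.den (q / (c b).den)) :
    ∑ b ∈ X, (if b ∈ bot A then A.card else cls A (c b)) ≤ (A * A + A).card := by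
  classical
  have hsel : ∀ d : ℕ, ∃ l : ℚ, ∀ b ∈ X, b.den = d → l ∈ A ∧ l ≠ 0 ∧
      Nat.Coprime d (q / l.den) ∧ cls A (c b) ≤ cls A l := by
    intro d
    rcases (A.filter (fun l => l ≠ 0 ∧ Nat.Coprime d (q / l.den))).eq_empty_or_nonempty with
      he | hne
    · refine ⟨0, fun b hb hbd => ?_⟩
      exfalso
      have h1 := hc b hb
      have h2 : c b ∈ A.filter (fun l => l ≠ 0 ∧ Nat.Coprime d (q / l.den)) :=
        mem_filter.mpr ⟨h1.1, h1.2.1, by rw [← hbd]; exact h1.2.2⟩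
      rw [he] at h2
      exact notMem_empty _ h2
    · obtain ⟨l, hl, hmax⟩ := exists_max_image _ (fun l => cls A l) hne
      rw [mem_filter] at hl
      refine ⟨l, fun b hb hbd => ⟨hl.1, hl.2.1, hl.2.2, ?_⟩⟩
      have h1 := hc b hb
      exact hmax (c b) (mem_filter.mpr ⟨h1.1, h1.2.1, by rw [← hbd]; exact h1.2.2⟩)
  choose L hL using hsel
  have h1 : ∀ b ∈ X, L b.den ∈ A ∧ L b.den ≠ 0 ∧ Nat.Coprime b.den (q / (L b.den).den) ∧
      cls A (c b) ≤ cls A (L b.den) := fun b hb => hL b.den b hb rfl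
  have key : ∀ x y : ℚ × ℚ, x.1 ∈ X → x.2 ∈ A → y.1 ∈ X → y.2 ∈ A → val L x = val L y →
      x.1.den = y.1.den ∧ Int.fract x.1 = Int.fract y.1 ∧
      Int.fract (x.2 / L x.1.den) = Int.fract (y.2 / L x.1.den) := by
    rintro ⟨b, a⟩ ⟨b', a'⟩ hb ha hb' ha' h
    simp only [RS.val] at h hb ha hb' ha'
    have l1 := h1 b hb
    have l2 := h1 b' hb'
    have d : b.den = b'.den := Nat.dvd_antisymm
      (den_dvd q _ b a _ b' a' (hA _ l1.1) (hA _ l2.1) (hA _ (hX hb)) (hA _ ha) (hA _ ha')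
        l1.2.2.1 h)
      (den_dvd q _ b' a' _ b a (hA _ l2.1) (hA _ l1.1) (hA _ (hX hb')) (hA _ ha') (hA _ ha)
        l2.2.2.1 h.symm)
    rw [← d] at h
    obtain ⟨z, hz⟩ := int_sub q (L b.den) b a b' a' (hA _ l1.1) (hA _ (hX hb)) (hA _ ha)
      (hA _ ha') d l1.2.2.1 h
    refine ⟨d, ?_, ?_⟩
    · rw [hz]
      exact Int.fract_add_intCast b' z
    · simp only
      have h3 : a' = a + z * L b.den := by
        have hz' : b - b' = z := by rw [hz]; ring
        rw [← hz']
        linear_combination -h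
      rw [h3, add_div, mul_div_cancel_right₀ _ l1.2.1]
      exact (Int.fract_add_intCast _ z).symm
  set B := bot A with hB
  have hmin : ∀ b ∈ B, ∀ b' ∈ A, Int.fract b' = Int.fract b → b ≤ b' :=
    fun b hb => (mem_filter.mp hb).2
  set P := (X ×ˢ A).filter (fun x : ℚ × ℚ => x.1 ∈ B ∨ x.2 ∈ top A (L x.1.den)) with hP
  have hPc : ∑ b ∈ X, (if b ∈ B then A.card else cls A (c b)) ≤ P.card := by
    rw [card_eq_sum_card_fiberwise (s := P) (f := Prod.fst) (t := X)
      (fun x hx => (mem_product.mp (mem_filter.mp hx).1).1)]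
    refine sum_le_sum fun b hb => ?_
    split_ifs with hbB
    · refine card_le_card_of_injOn (fun a => (b, a)) ?_ ?_
      · intro a ha
        rw [mem_coe, mem_filter, hP, mem_filter, mem_product]
        exact ⟨⟨⟨hb, ha⟩, Or.inl hbB⟩, rfl⟩
      · intro a _ a' _ h
        exact (Prod.ext_iff.mp h).2
    · refine (h1 b hb).2.2.2.trans ((top_card A _).trans ?_)
      refine card_le_card_of_injOn (fun a => (b, a)) ?_ ?_
      · intro a ha
        rw [mem_coe, mem_filter, hP, mem_filter, mem_product]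
        exact ⟨⟨⟨hb, (mem_filter.mp ha).1⟩, Or.inr ha⟩, rfl⟩
      · intro a _ a' _ h
        exact (Prod.ext_iff.mp h).2
  have hmix : ∀ x y : ℚ × ℚ, x.1 ∈ X → x.2 ∈ top A (L x.1.den) → x.1 ∉ B → y.1 ∈ B → y.1 ∈ X →
      y.2 ∈ A → val L x ≠ val L y := by
    intro x y hx hxt hxB hyB hyX hy h
    have hxA : x.2 ∈ A := (mem_filter.mp hxt).1
    obtain ⟨k1, k2, k3⟩ := key x y hx hxA hyX hy h
    simp only [RS.val] at h
    rw [← k1] at h
    have h3 : y.1 ≤ x.1 := hmin y.1 hyB x.1 (hX hx) k2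
    have h4 : y.1 ≠ x.1 := fun h5 => hxB (h5 ▸ hyB)
    have h5 : y.1 < x.1 := lt_of_le_of_ne h3 h4
    have h6 := (mem_filter.mp hxt).2 y.2 hy k3.symm
    have h7 : 0 < L x.1.den * L x.1.den := mul_self_pos.mpr (h1 _ hx).2.1
    have h8 : 0 < L x.1.den * L x.1.den * (x.1 - y.1) := mul_pos h7 (sub_pos.mpr h5)
    have h9 : L x.1.den * L x.1.den * (x.1 - y.1) = L x.1.den * y.2 - L x.1.den * x.2 := by
      linear_combination L x.1.den * h
    linarith
  refine hPc.trans ?_
  refine card_le A L P ?_ ?_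
  · intro x hx
    rw [hP, mem_filter, mem_product] at hx
    exact ⟨hX hx.1.1, hx.1.2, (h1 _ hx.1.1).1⟩
  · intro x hx y hy h
    rw [hP, mem_filter, mem_product] at hx hy
    obtain ⟨k1, k2, k3⟩ := key x y hx.1.1 hx.1.2 hy.1.1 hy.1.2 h
    by_cases hxB : x.1 ∈ B
    · by_cases hyB : y.1 ∈ B
      · have h3 : x.1 = y.1 :=
          le_antisymm (hmin x.1 hxB y.1 (hX hy.1.1) k2.symm) (hmin y.1 hyB x.1 (hX hx.1.1) k2)
        simp only [RS.val] at h
        rw [h3] at h
        exact Prod.ext h3 (add_left_cancel h)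
      · exact absurd h.symm (hmix y x hy.1.1 (hy.2.resolve_left hyB) hyB hxB hx.1.1 hx.1.2)
    · by_cases hyB : y.1 ∈ B
      · exact absurd h (hmix x y hx.1.1 (hx.2.resolve_left hxB) hxB hyB hy.1.1 hy.1.2)
      · have t1 := hx.2.resolve_left hxB
        have t2 := hy.2.resolve_left hyB
        rw [← k1] at t2
        have h3 : L x.1.den * x.2 = L x.1.den * y.2 :=
          le_antisymm ((mem_filter.mp t2).2 x.2 hx.1.2 k3)
            ((mem_filter.mp t1).2 y.2 hy.1.2 k3.symm)
        have h4 : x.2 = y.2 := mul_left_cancel₀ (h1 _ hx.1.1).2.1 h3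
        simp only [RS.val] at h
        rw [← k1, h4] at h
        exact Prod.ext (mul_left_cancel₀ (h1 _ hx.1.1).2.1 (add_right_cancel h)) h4

/-- the elements of an interval shorter than the multiplier are in different classes -/
theorem window (A : Finset ℚ) (l x : ℚ) (hl : l ≠ 0) :
    (A.filter (fun a => x ≤ a ∧ a < x + |l|)).card ≤ cls A l := by
  classical
  rw [cls]
  refine card_le_card_of_injOn (fun a => Int.fract (a / l)) ?_ ?_
  · intro a ha
    rw [mem_coe, mem_filter] at ha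
    exact mem_image_of_mem (fun a => Int.fract (a / l)) ha.1
  · intro a ha a' ha' h
    rw [mem_coe, mem_filter] at ha ha'
    obtain ⟨z, hz⟩ := Int.fract_eq_fract.mp h
    have h1 : a - a' = z * l := by
      field_simp at hz
      linarith
    have h2 : |a - a'| < |l| := by
      rw [abs_lt]
      constructor <;> linarith [ha.2.1, ha.2.2, ha'.2.1, ha'.2.2]
    have hlp : 0 < |l| := abs_pos.mpr hl
    rw [h1, abs_mul] at h2
    have h3 : |(z : ℚ)| < 1 := by
      by_contra hcon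
      push Not at hcon
      have := mul_le_mul_of_nonneg_right hcon hlp.le
      linarith
    have h4 : |z| < 1 := by exact_mod_cast h3
    have h5 : z = 0 := Int.abs_lt_one_iff.mp h4
    rw [h5, Int.cast_zero, zero_mul] at h1
    linarith

theorem cls_le (A : Finset ℚ) (l : ℚ) : cls A l ≤ A.card := card_image_le

theorem windows (A X : Finset ℚ) (q : ℕ) (c x : ℚ → ℚ) (hX : X ⊆ A) (hA : ∀ a ∈ A, a.den ∣ q)
    (hc : ∀ b ∈ X, c b ∈ A ∧ c b ≠ 0 ∧ Nat.Coprime b.den (q / (c b).den)) :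
    ∑ b ∈ X, (A.filter (fun a => x b ≤ a ∧ a < x b + |c b|)).card ≤ (A * A + A).card := by
  refine le_trans ?_ (classes A X q c hX hA hc)
  refine sum_le_sum fun b hb => ?_
  have h1 := window A (c b) (x b) (hc b hb).2.1
  split_ifs
  · exact h1.trans (cls_le A _)
  · exact h1

end Pool.Agent.Helper37.RG
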