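import Pool.Agent.Helper37.RG.Per

/-!
# Dominated denominators: the count of the values
-/

set_option autoImplicit false

namespace Pool.Agent.Helper37.RG

open Finset
open scoped Pointwise
open Pool.Agent.Helper37.RS (den_sub_one card_add_self sums_le')

section

variable {A : Finset ℚ} {q : ℕ} {L : ℕ → ℚ}

/-- the last step, with a deficit -/
theorem Sg.finish' (h : Sg A q L) (σ : ℚ → ℕ) (E S : ℕ) (G δ : ℚ) (P M : Finset ℚ)
    (hP : ∀ b ∈ P, 0 ≤ b ∧ b ∈ A ∧ b + 1 ∈ A) (hM : ∀ b ∈ M, b + 1 ≤ 0 ∧ b ∈ A ∧ b + 1 ∈ A)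
    (huv : P.card + M.card = ∑ d ∈ mu A L, σ d)
    (h0 : 0 < ∑ d ∈ mu A L, σ d)
    (hS : (A.card : ℚ) * A.card + (A.card + ∑ d ∈ mu A L, (σ d : ℚ) * (σ d + 1)) + 2 * E
      + G ≤ 2 * S + 2 * ∑ d ∈ mu A L, (σ d : ℚ) * (qq A d).card + δ)
    (hR : δ - 2 < RR (mu A L) σ (fun d => (qq A d).card) P.card M.card E + G) :
    (A + A).card ≤ S := by
  classical
  rw [RR] at hR
  set D := mu A L with hD
  have hmix := h.mixed (fun d => 2 * (σ d : ℚ) / (∑ d ∈ D, (σ d : ℚ) + σ d))
    (fun C hC m hm => weight_le D (fun d => (σ d : ℚ)) (fun d => Nat.cast_nonneg _)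
        (by exact_mod_cast h0) C hC m hm)
  have hsum := sums_le' A P M hP hM
  have g4 : ((P.card : ℚ) + M.card) = ∑ d ∈ D, (σ d : ℚ) := by exact_mod_cast huv
  have g5 : ∑ d ∈ D, (σ d : ℚ) * (σ d + 1) =
      ∑ d ∈ D, (σ d : ℚ) ^ 2 + ∑ d ∈ D, (σ d : ℚ) := by
    rw [← sum_add_distrib]
    exact sum_congr rfl fun d _ => by ring
  have g6 : ∑ d ∈ D, ((σ d : ℚ) ^ 2 - 2 * σ d * (qq A d).card +
    2 * (σ d : ℚ) / (∑ d ∈ D, (σ d : ℚ) + σ d) *
      (((qq A d).card : ℚ) * ((qq A d).card - 1))) =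
      ∑ d ∈ D, (σ d : ℚ) ^ 2 -
      2 * ∑ d ∈ D, (σ d : ℚ) * (qq A d).card +
      ∑ d ∈ D, 2 * (σ d : ℚ) /
        (∑ d ∈ D, (σ d : ℚ) + σ d) *
        (((qq A d).card : ℚ) * ((qq A d).card - 1)) := by
    rw [sum_add_distrib, sum_sub_distrib, mul_sum]
    congr 2
    exact sum_congr rfl fun d _ => by ring
  rw [g6] at hR
  rw [g5] at hS
  have g7 : ((A + A).card : ℚ) < S + 1 := by linarith
  have g8 : (A + A).card < S + 1 := by exact_mod_cast g7
  omega

/-- the last step -/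
theorem Sg.finish (h : Sg A q L) (σ : ℚ → ℕ) (E S : ℕ) (P M : Finset ℚ)
    (hP : ∀ b ∈ P, 0 ≤ b ∧ b ∈ A ∧ b + 1 ∈ A) (hM : ∀ b ∈ M, b + 1 ≤ 0 ∧ b ∈ A ∧ b + 1 ∈ A)
    (huv : P.card + M.card = ∑ d ∈ mu A L, σ d)
    (hE : ((mu A L).filter (fun d => 0 < σ d)).card ≤ E + 1)
    (hS : (A.card : ℚ) * A.card + (A.card + ∑ d ∈ mu A L, (σ d : ℚ) * (σ d + 1)) + 2 * E
      ≤ 2 * S + 2 * ∑ d ∈ mu A L, (σ d : ℚ) * (qq A d).card) :
    (A + A).card ≤ S := by
  classical
  rcases Nat.eq_zero_or_pos (∑ d ∈ mu A L, σ d) with h0 | h0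
  · have h1 : ∑ d ∈ mu A L, (σ d : ℚ) * (qq A d).card = 0 := by
      rw [sum_eq_zero_iff] at h0
      exact sum_eq_zero fun d hd => by rw [h0 d hd]; simp
    have h1' : ∑ d ∈ mu A L, (σ d : ℚ) * (σ d + 1) = 0 := by
      rw [sum_eq_zero_iff] at h0
      exact sum_eq_zero fun d hd => by rw [h0 d hd]; simp
    have h2 : 2 * ((A + A).card : ℚ) ≤ (A.card : ℚ) * (A.card + 1) := by
      exact_mod_cast card_add_self A
    rw [h1, h1'] at hS
    have h3 : (0 : ℚ) ≤ E := Nat.cast_nonneg E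
    have h4 : ((A + A).card : ℚ) ≤ S := by linarith
    exact_mod_cast h4
  · have har := arith (mu A L) σ (fun d => (qq A d).card) P.card M.card E huv h0 hE
    refine h.finish' σ E S 0 0 P M hP hM huv h0 (by linarith) ?_
    rw [RR]
    linarith

/-- the steps, counted by the signs -/
theorem st_sum : (A.filter (fun b => 0 ≤ b ∧ b + 1 ∈ A)).card +
    (A.filter (fun b => b + 1 ≤ 0 ∧ b + 1 ∈ A)).card =
      ∑ l ∈ mu A L, (st A L l).card := by
  classical
  have h1 : ∑ l ∈ mu A L, (st A L l).card =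
      (A.filter (fun b => b - 1 ∈ A ∧ ¬ (b - 1 < 0 ∧ 0 < b))).card := by
    rw [card_eq_sum_card_fiberwise (f := fun a => L a.den) (t := mu A L)
      (fun x hx => mem_image_of_mem _ (mem_filter.mp hx).1)]
    refine sum_congr rfl fun d _ => ?_
    congr 1
    ext b
    simp only [st, mem_filter]
    tauto
  rw [h1, ← card_union_of_disjoint]
  · refine card_bij (fun b _ => b + 1) ?_ ?_ ?_
    · intro b hb
      rw [mem_union, mem_filter, mem_filter] at hb
      rw [mem_filter, add_sub_cancel_right]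
      rcases hb with hb | hb
      · exact ⟨hb.2.2, hb.1, fun h => by linarith [h.1, hb.2.1]⟩
      · exact ⟨hb.2.2, hb.1, fun h => by linarith [h.2, hb.2.1]⟩
    · intro b _ b' _ hbb
      linarith
    · intro b hb
      rw [mem_filter] at hb
      refine ⟨b - 1, ?_, by ring⟩
      rw [mem_union, mem_filter, mem_filter, sub_add_cancel]
      by_cases h5 : 0 ≤ b - 1
      · exact Or.inl ⟨hb.2.1, h5, hb.1⟩
      · right
        refine ⟨hb.2.1, ?_, hb.1⟩
        by_contra h6
        push Not at h5 h6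
        exact hb.2.2 ⟨h5, h6⟩
  · rw [disjoint_left]
    intro b h5 h6
    rw [mem_filter] at h5 h6
    linarith [h5.2.1, h6.2.1]

/-- the multipliers with steps are large -/
theorem Sg.st_big (h : Sg A q L) {l : ℚ} (hl : 0 < (st A L l).card) : 1 ≤ |l| := by
  obtain ⟨b, hb⟩ := card_pos.mp hl
  rw [mem_st] at hb
  obtain ⟨hb, hbd, hb1, hb2⟩ := hb
  have h1 := h.le b hb
  have h2 := h.le _ hb1
  rw [den_sub_one] at h2
  rw [hbd] at h1 h2
  by_cases h3 : b - 1 < 0
  · have h4 : b ≤ 0 := by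
      by_contra hcon
      push Not at hcon
      exact hb2 ⟨h3, hcon⟩
    rw [abs_of_neg h3] at h2
    linarith
  · push Not at h3
    rw [abs_of_nonneg (by linarith)] at h1
    linarith

/-- the number of steps across `0` -/
def yy (A : Finset ℚ) (L : ℕ → ℚ) : ℕ := ∑ l ∈ dbig A L, (up A L l).card

theorem card_split : A.card = (big A L).card + (sml A L).card := by
  classical
  rw [← card_union_of_disjoint]
  · congr 1
    ext a
    rw [mem_union]
    exact ⟨fun ha => big_or_sml ha, fun ha => ha.elim (fun h => (mem_big.mp h).1)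
      (fun h => (mem_sml.mp h).1)⟩
  · rw [disjoint_left]
    intro a h1 h2
    linarith [(mem_big.mp h1).2, (mem_sml.mp h2).2]

/-- the count of the values -/
theorem Sg.count (h : Sg A q L) (δ : ℕ)
    (hδ : ∑ l ∈ dbig A L, (2 * (up A L l).card * (gset A L l).card +
      (st A L l).card * ((st A L l).card + 1)) ≤
      ∑ l ∈ dbig A L, ((am A L l).card * (am A L l).card - (am A L l).card) + δ)
    (a₀ : ℚ) (ha₀ : a₀ ∈ A) :
    (A.card : ℚ) * A.card + (A.card + ∑ l ∈ mu A L, ((st A L l).card : ℚ) *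
      ((st A L l).card + 1)) + 2 * ((dbig A L).filter (fun l => |l| < |a₀|)).card +
      (2 * (inn A L).card - 2 * zz A L) +
      (sml A L).card * ((big A L).card - 2 * yy A L - 1) +
      (2 * (ks A L).card - (sml A L).card * A.card) ≤
      2 * (A * A + A).card + 2 * ∑ l ∈ mu A L, ((st A L l).card : ℚ) * (qq A l).card
      + δ := by
  classical
  set D := mu A L with hD
  set P₀ := (kb A L \ rb A L) ∪ ks A L with hP₀
  set E := (dbig A L).filter (fun l => |l| < |a₀|) with hE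
  have hrk : rb A L ⊆ kb A L := filter_subset _ _
  have hdis : Disjoint (kb A L \ rb A L) (ks A L) := by
    rw [disjoint_left]
    intro x hx hx'
    rw [mem_sdiff, mem_kb, mem_big] at hx
    rw [ks, mem_product, mem_filter, mem_sml] at hx'
    linarith [hx.1.2.1.2, hx'.1.1.2]
  have hP₀c : P₀.card + (rb A L).card = (kb A L).card + (ks A L).card := by
    rw [hP₀, card_union_of_disjoint hdis]
    have := card_sdiff_add_card_eq_card hrk
    omega
  have hv := h.values_gen P₀ (by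
    intro x hx
    rw [hP₀, mem_union, mem_sdiff, mem_kb, mem_od, ks, mem_product, mem_filter, mem_sml] at hx
    rcases hx with hx | hx
    · exact ⟨hx.1.1.1, hx.1.1.2.1⟩
    · exact ⟨hx.1.1.1, hx.2⟩) (fun x hx y hy => h.inj_full x y hx hy) a₀ ha₀ E (by
    intro d hd
    rw [hE, mem_filter, mem_dbig] at hd
    exact hd.1.1) (by
    intro d hd
    rw [hE, mem_filter, mem_dbig] at hd
    refine ⟨hd.2, ?_⟩
    intro x hx hxd
    rw [hP₀, mem_union, mem_sdiff, mem_kb, mem_od, ks, mem_product, mem_filter, mem_sml] at hx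
    rcases hx with hx | hx
    · rcases hx.1.1.2.2 with h3 | ⟨h3, -⟩
      · rw [hxd] at h3
        exact (mem_win.mp h3).2.1
      · rw [← h3, ← hxd]; exact h.le _ hx.1.1.1
    · exfalso
      rw [hxd] at hx
      linarith [hx.1.1.2, hd.1.2])
  have hσ : ∀ l, l ∉ dbig A L → l ∈ D → (st A L l).card = 0 := by
    intro d hd hdD
    by_contra hcon
    exact hd (mem_dbig.mpr ⟨hdD, h.st_big (Nat.pos_of_ne_zero hcon)⟩)
  have hsub : dbig A L ⊆ D := filter_subset _ _
  have n1 := h.card_kb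
  have n3 := h.card_rb
  have n4 : ∑ l ∈ dbig A L, (rbu A L l).card ≤ ∑ l ∈ dbig A L,
      (up A L l).card * ((sml A L).card + (gset A L l).card + (zset A L l).card) :=
    sum_le_sum fun d hd => h.card_rbu d hd
  have n8 := card_split (A := A) (L := L)
  have n9 : ∑ l ∈ D, ((st A L l).card : ℚ) * ((st A L l).card + 1) =
      ∑ l ∈ dbig A L, ((st A L l).card : ℚ) * ((st A L l).card + 1) := by
    symm
    apply sum_subset hsub
    intro d hd hd'
    rw [hσ d hd' hd]
    simp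
  have c0 : (P₀.card : ℚ) + (rb A L).card = (kb A L).card + (ks A L).card := by
    exact_mod_cast hP₀c
  have c1 : (A.card : ℚ) * A.card + ((big A L).card + ∑ l ∈ dbig A L,
      (((am A L l).card * (am A L l).card - (am A L l).card : ℕ) : ℚ) + 2 * (inn A L).card)
      ≤ 2 * (kb A L).card + (sml A L).card * (sml A L).card := by exact_mod_cast n1
  have c3 : ((rb A L).card : ℚ) ≤ ∑ l ∈ D, ((st A L l).card : ℚ) * (qq A l).card +
      ∑ l ∈ dbig A L, ((rbu A L l).card : ℚ) := by exact_mod_cast n3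
  have c4 : ∑ l ∈ dbig A L, ((rbu A L l).card : ℚ) ≤ ∑ l ∈ dbig A L,
      ((up A L l).card : ℚ) * ((sml A L).card + (gset A L l).card + (zset A L l).card) := by
    exact_mod_cast n4
  have c5 : ∑ l ∈ dbig A L, (2 * ((up A L l).card : ℚ) * (gset A L l).card +
      (st A L l).card * ((st A L l).card + 1)) ≤ ∑ l ∈ dbig A L,
      (((am A L l).card * (am A L l).card - (am A L l).card : ℕ) : ℚ) + δ := by
    exact_mod_cast hδ
  have c8 : (A.card : ℚ) = (big A L).card + (sml A L).card := by exact_mod_cast n8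
  have c10 : (P₀.card : ℚ) + E.card ≤ (A * A + A).card := by exact_mod_cast hv
  have d1 : ∑ l ∈ dbig A L,
      ((up A L l).card : ℚ) * ((sml A L).card + (gset A L l).card + (zset A L l).card) =
      (∑ l ∈ dbig A L, ((up A L l).card : ℚ)) * (sml A L).card +
      ∑ l ∈ dbig A L, ((up A L l).card : ℚ) * (gset A L l).card +
      ∑ l ∈ dbig A L, ((up A L l).card : ℚ) * (zset A L l).card := by
    rw [sum_mul, ← sum_add_distrib, ← sum_add_distrib]
    exact sum_congr rfl fun d _ => by ring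
  have d2 : ∑ l ∈ dbig A L, (2 * ((up A L l).card : ℚ) * (gset A L l).card +
      (st A L l).card * ((st A L l).card + 1)) =
      2 * ∑ l ∈ dbig A L, ((up A L l).card : ℚ) * (gset A L l).card +
      ∑ l ∈ dbig A L, ((st A L l).card : ℚ) * ((st A L l).card + 1) := by
    rw [mul_sum, ← sum_add_distrib]
    exact sum_congr rfl fun d _ => by ring
  rw [d1] at c4
  rw [d2] at c5
  rw [n9]
  have hZ : ((zz A L : ℕ) : ℚ) = ∑ l ∈ dbig A L, ((up A L l).card : ℚ) * (zset A L l).card := by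
    rw [zz]; push_cast; rfl
  rw [hZ]
  have hY : ((yy A L : ℕ) : ℚ) = ∑ l ∈ dbig A L, ((up A L l).card : ℚ) := by
    rw [yy]; push_cast; rfl
  rw [hY]
  set Y : ℚ := ∑ l ∈ dbig A L, ((up A L l).card : ℚ) with hY'
  have p1 : ((sml A L).card : ℚ) * A.card =
      (sml A L).card * (big A L).card + (sml A L).card * (sml A L).card := by
    rw [c8]; ring
  rw [p1]
  have p2 : ((sml A L).card : ℚ) * ((big A L).card - 2 * Y - 1) =
      (sml A L).card * (big A L).card - 2 * (Y * (sml A L).card) - (sml A L).card := by ring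
  rw [p2]
  linarith

/-- all multipliers but one are less than the maximum -/
theorem Sg.den_E (h : Sg A q L) (a₀ : ℚ) (hmax : ∀ a ∈ A, |a| ≤ |a₀|) (T : Finset ℚ)
    (hT : T ⊆ dbig A L) : T.card ≤ ((dbig A L).filter (fun l => |l| < |a₀|)).card + 1 := by
  classical
  have h1 : T ⊆ ((dbig A L).filter (fun l => |l| < |a₀|)) ∪
      (dbig A L).filter (fun l => ¬ |l| < |a₀|) := by
    rw [filter_union_filter_not_eq]
    exact hT
  have h2 : ((dbig A L).filter (fun l => ¬ |l| < |a₀|)).card ≤ 1 := by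
    refine card_le_one.mpr ?_
    intro x hx y hy
    rw [mem_filter, mem_dbig] at hx hy
    have h3 := hmax x (h.Ld hx.1.1).1
    have h4 := hmax y (h.Ld hy.1.1).1
    exact h.abs_inj hx.1.1 hy.1.1 (by linarith [hx.2, hy.2])
  exact (card_le_card h1).trans ((card_union_le _ _).trans (by omega))

theorem Sg.st_dbig (h : Sg A q L) :
    (mu A L).filter (fun l => 0 < (st A L l).card) ⊆ dbig A L := by
  intro d hd
  rw [mem_filter] at hd
  exact mem_dbig.mpr ⟨hd.1, h.st_big hd.2⟩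

theorem Sg.gain (h : Sg A q L) (hne : (big A L).Nonempty) :
    (0 : ℚ) ≤ (2 * (inn A L).card - 2 * zz A L) ∧
    (0 : ℚ) ≤ (sml A L).card * ((big A L).card - 2 * yy A L - 1) ∧
    (0 : ℚ) ≤ (2 * (ks A L).card - (sml A L).card * A.card) := by
  refine ⟨?_, ?_, ?_⟩
  · have h1 := zz_inn (A := A) (L := L)
    have h2 : 2 * (zz A L : ℚ) ≤ (inn A L).card := by exact_mod_cast h1
    have h3 : (0 : ℚ) ≤ (inn A L).card := Nat.cast_nonneg _
    linarith
  · have n6 := h.big_ge
    have n6' : 1 ≤ (dbig A L).card := by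
      obtain ⟨b, hb⟩ := hne
      rw [mem_big] at hb
      exact card_pos.mpr ⟨L b.den, mem_dbig.mpr ⟨mem_mu.mpr ⟨_, hb.1, rfl⟩, hb.2⟩⟩
    have h1 : 2 * yy A L + 1 ≤ (big A L).card := by rw [yy]; omega
    have h2 : 2 * (yy A L : ℚ) + 1 ≤ (big A L).card := by exact_mod_cast h1
    exact mul_nonneg (Nat.cast_nonneg _) (by linarith)
  · have h1 := h.card_ks
    have h2 : ((sml A L).card : ℚ) * A.card ≤ 2 * (ks A L).card := by exact_mod_cast h1
    linarith

/-- **Both signs.** -/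
theorem Sg.full (h : Sg A q L) (hne : (big A L).Nonempty)
    (hZ : ∀ l ∈ dbig A L, -l ∈ A → 2 ≤ (up A L l).card + (bo A L l).card) :
    (A + A).card ≤ (A * A + A).card := by
  classical
  have hneA : A.Nonempty := by
    obtain ⟨b, hb⟩ := hne
    exact ⟨b, (mem_big.mp hb).1⟩
  obtain ⟨a₀, ha₀, hmax⟩ := exists_max_image A (fun a => |a|) hneA
  have n5 : ∑ l ∈ dbig A L, (2 * (up A L l).card * (gset A L l).card +
      (st A L l).card * ((st A L l).card + 1)) ≤
      ∑ l ∈ dbig A L, ((am A L l).card * (am A L l).card - (am A L l).card) + 0 :=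
    sum_le_sum fun l hl => h.per hl (hZ l hl)
  have hc := h.count 0 n5 a₀ ha₀
  obtain ⟨g1, g2, g3⟩ := h.gain hne
  refine h.finish (fun l => (st A L l).card) _ _ (A.filter (fun b => 0 ≤ b ∧ b + 1 ∈ A))
    (A.filter (fun b => b + 1 ≤ 0 ∧ b + 1 ∈ A))
    (fun b hb => ⟨(mem_filter.mp hb).2.1, (mem_filter.mp hb).1, (mem_filter.mp hb).2.2⟩)
    (fun b hb => ⟨(mem_filter.mp hb).2.1, (mem_filter.mp hb).1, (mem_filter.mp hb).2.2⟩)
    st_sum (h.den_E a₀ hmax _ h.st_dbig) ?_
  rw [Nat.cast_zero] at hc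
  linarith

end

end Pool.Agent.Helper37.RG
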