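import Pool.Agent.Helper37.RG.Steps

/-!
# Dominated denominators: the pairs left out at the steps across `0`
-/

set_option autoImplicit false

namespace Pool.Agent.Helper37.RG

open Finset
open scoped Pointwise
open Pool.Agent.Helper37.RS (den_sub_one)

/-- the elements that may be second components -/
def gset (A : Finset ℚ) (L : ℕ → ℚ) (l : ℚ) : Finset ℚ :=
  if l < 0 then (gr A L l).erase l
  else if -l ∈ A ∧ (bo A L l).card ≤ 1 then ∅ else (am A L l).filter (fun a => a ≤ 0)

section

variable {A : Finset ℚ} {q : ℕ} {L : ℕ → ℚ}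

/-- a multiplier that is an integer belongs to integers only -/
theorem Sg.int_group (h : Sg A q L) {b : ℚ} (hb : b ∈ A) (hl : (L b.den).den = 1) :
    b.den = 1 := by
  have h1 := h.cop b hb
  rw [hl, Nat.div_one] at h1
  exact Nat.Coprime.eq_one_of_dvd h1 (h.dvd b hb)

theorem fract_int {x y : ℚ} (h : Int.fract x = Int.fract y) : ∃ z : ℤ, x = y + z := by
  obtain ⟨z, hz⟩ := Int.fract_eq_fract.mp h
  exact ⟨z, by linarith⟩

/-- only one class modulo `1` -/
theorem one_class {l a u : ℚ} (hbo : (bo A L l).card ≤ 1) (ha : a ∈ gr A L l)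
    (hu : u ∈ gr A L l) : Int.fract a = Int.fract u := by
  by_contra hcon
  have hne : a ≠ u := fun h => hcon (by rw [h])
  have h1 := le_bo (A := A) (L := L) l {a, u} (by
    intro t ht
    rw [mem_insert, mem_singleton] at ht
    rcases ht with rfl | rfl
    · exact mem_gr.mp ha
    · exact mem_gr.mp hu) (by
    intro s hs t ht hst
    rw [mem_coe, mem_insert, mem_singleton] at hs ht
    rcases hs with rfl | rfl <;> rcases ht with rfl | rfl
    · rfl
    · exact absurd hst hcon
    · exact absurd hst.symm hcon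
    · rfl)
  rw [card_pair hne] at h1
  omega

theorem Sg.rbu_data (h : Sg A q L) (l : ℚ) (x : ℚ × ℚ) (hx : x ∈ rbu A L l) :
    x.1 ∈ up A L l ∧ x.2 ∈ win A l ∧ x.2 + l ∈ win A l ∧ ¬ drp A L x.1 x.2 ∧
      ¬ drp A L (x.1 - 1) (x.2 + l) := by
  rw [rbu, mem_filter] at hx
  obtain ⟨hx, hu⟩ := hx
  have hd := (mem_up.mp hu).2.1
  obtain ⟨h1, h1', h2, h3⟩ := h.mem_rb' x hx
  rw [hd] at h2 h3
  rw [mem_rb, mem_kb, mem_kb] at hx
  have h4 := hx.2.2.2
  simp only [hd] at h4
  exact ⟨hu, h2, h3, hx.1.2.2, h4⟩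

/-- the second components with the same multiplier -/
theorem Sg.in_gset (h : Sg A q L) (l : ℚ) (hl : l ∈ dbig A L) (hpos : 0 < l) (x : ℚ × ℚ)
    (hx : x ∈ rbu A L l) (hg : x.2 ∈ gr A L l) (ha : x.2 ≤ 0) : x.2 ∈ gset A L l := by
  obtain ⟨h1, h2, h3, h4, h5⟩ := h.rbu_data l x hx
  have hu := mem_up.mp h1
  rw [mem_win] at h2 h3
  rw [gset, if_neg (not_lt.mpr hpos.le)]
  by_cases hc : -l ∈ A ∧ (bo A L l).card ≤ 1
  · exfalso
    obtain ⟨hm, hbo⟩ := hc
    obtain ⟨hlA, hLl⟩ := h.Ld (mem_dbig.mp hl).1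
    have hug : x.1 ∈ gr A L l := mem_gr.mpr ⟨hu.1, hu.2.1⟩
    have hlg : l ∈ gr A L l := mem_gr.mpr ⟨hlA, hLl⟩
    have hmg : -l ∈ gr A L l := mem_gr.mpr ⟨hm, by rw [Rat.neg_den, hLl]⟩
    obtain ⟨z₁, hz₁⟩ := fract_int (one_class hbo hlg hug)
    obtain ⟨z₂, hz₂⟩ := fract_int (one_class hbo hmg hug)
    obtain ⟨z₃, hz₃⟩ := fract_int (one_class hbo hg hug)
    have hu1 : x.1 < 1 := by linarith [hu.2.2.2.1]
    have hu0 : 0 < x.1 := hu.2.2.2.2
    have h6 : 2 * x.1 = ((-(z₁ + z₂) : ℤ) : ℚ) := by push_cast; linarith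
    have h7 : (0 : ℚ) < ((-(z₁ + z₂) : ℤ) : ℚ) := by linarith
    have h8 : ((-(z₁ + z₂) : ℤ) : ℚ) < 2 := by linarith
    have h7' : 0 < -(z₁ + z₂) := by exact_mod_cast h7
    have h8' : -(z₁ + z₂) < 2 := by exact_mod_cast h8
    have h9 : -(z₁ + z₂) = 1 := by omega
    rw [h9] at h6
    have h10 : x.2 + l = ((1 + z₁ + z₃ : ℤ) : ℚ) := by
      push_cast at h6 ⊢
      linarith
    have h11 : (1 + z₁ + z₃ : ℤ) ≠ 0 := by
      intro h0
      rw [h0, Int.cast_zero] at h10
      exact h2.2.2 (by linarith)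
    have h12 : (1 : ℚ) ≤ |x.2 + l| := by
      rw [h10]
      have : (1 : ℤ) ≤ |1 + z₁ + z₃| := Int.one_le_abs h11
      exact_mod_cast this
    have h13 : L (x.2 + l).den ≠ l := by
      intro h14
      have h15 : x.2 + l ∈ gr A L l := mem_gr.mpr ⟨h3.1, h14⟩
      obtain ⟨z₄, hz₄⟩ := fract_int (one_class hbo h15 hug)
      apply up_den h1
      have h16 : x.1 = ((1 + z₁ + z₃ - z₄ : ℤ) : ℚ) := by
        rw [h10] at hz₄
        push_cast at hz₄ ⊢
        linarith
      rw [h16]
      exact Rat.den_intCast _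
    apply h5
    refine ⟨?_, mem_big.mpr ⟨h3.1, h12.trans (h.le _ h3.1)⟩, ?_, Or.inl h12⟩
    · rw [abs_lt]
      constructor <;> linarith
    · rw [den_sub_one, hu.2.1]
      exact h13
  · rw [if_neg hc, mem_filter, mem_am]
    exact ⟨⟨h2.1, (mem_gr.mp hg).2, h2.2.2⟩, ha⟩

theorem Sg.card_rbu (h : Sg A q L) (l : ℚ) (hl : l ∈ dbig A L) : (rbu A L l).card ≤
    (up A L l).card * ((sml A L).card + (gset A L l).card + (zset A L l).card) := by
  classical
  have hl' := mem_dbig.mp hl
  have hLd := h.Ld hl'.1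
  rcases Finset.eq_empty_or_nonempty (rbu A L l) with he | ⟨x₀, hx₀⟩
  · rw [he, card_empty]
    exact Nat.zero_le _
  have hu₀ := (h.rbu_data l x₀ hx₀).1
  have hgoal : (rbu A L l).card ≤ (up A L l ×ˢ (sml A L ∪ gset A L l ∪ zset A L l)).card := by
    rcases lt_or_ge l 0 with hneg | hpos
    · have habs : |l| = -l := abs_of_neg hneg
      have hg : gset A L l = (gr A L l).erase l := by
        rw [gset, if_pos hneg]
      have hL1 : l < -1 := by
        have h1 := hl'.2
        rw [habs] at h1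
        by_contra hcon
        push Not at hcon
        have h2 : l = -1 := by linarith
        have hu := mem_up.mp hu₀
        apply up_den hu₀
        apply h.int_group hu.1
        rw [hu.2.1, h2]
        rfl
      have hzero : (0 : ℚ) ∈ A → (0 : ℚ) ∈ sml A L ∪ gset A L l ∪ zset A L l := by
        intro h0
        rw [mem_union, mem_union, mem_zset, hg, mem_erase, mem_gr]
        rcases big_or_sml (L := L) h0 with h1 | h1
        · by_cases h2 : L 1 = l
          · exact Or.inl (Or.inr ⟨by linarith, h0, by rw [Rat.den_zero]; exact h2⟩)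
          · exact Or.inr ⟨h1, rfl, h2⟩
        · exact Or.inl (Or.inl h1)
      let φ : ℚ → ℚ := fun a => if a ∈ sml A L ∨ a = 0 then a else if a + l ∈ sml A L then
        a + l else if L a.den = l then a else a + l
      have hφ : ∀ x ∈ rbu A L l, φ x.2 ∈ sml A L ∪ gset A L l ∪ zset A L l ∧
          ((φ x.2 = x.2 ∧ 0 ≤ x.2) ∨ (φ x.2 = x.2 + l ∧ x.2 + l < 0)) := by
        intro x hx
        obtain ⟨h1, h2, h3, h4, h5⟩ := h.rbu_data l x hx
        rw [mem_win, habs] at h2 h3
        have k1 := abs_le.mp h2.2.1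
        have k2 := abs_le.mp h3.2.1
        have k3 : 0 ≤ x.2 := by linarith [k2.1]
        have k4 : x.2 < -l := lt_of_le_of_ne k1.2 h2.2.2
        have k5 : x.2 + l < 0 := by linarith
        have hu := mem_up.mp h1
        simp only [φ]
        split_ifs with c1 c2 c3
        · refine ⟨?_, Or.inl ⟨rfl, k3⟩⟩
          rcases c1 with c1 | c1
          · rw [mem_union, mem_union]; exact Or.inl (Or.inl c1)
          · rw [c1] at h2 ⊢
            exact hzero h2.1
        · refine ⟨?_, Or.inr ⟨rfl, k5⟩⟩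
          rw [mem_union, mem_union]; exact Or.inl (Or.inl c2)
        · refine ⟨?_, Or.inl ⟨rfl, k3⟩⟩
          rw [mem_union, mem_union, hg, mem_erase, mem_gr]
          exact Or.inl (Or.inr ⟨by linarith, h2.1, c3⟩)
        · refine ⟨?_, Or.inr ⟨rfl, k5⟩⟩
          push Not at c1
          have k6 : 0 < x.2 := lt_of_le_of_ne k3 (Ne.symm c1.2)
          rw [mem_union, mem_union, hg, mem_erase, mem_gr]
          refine Or.inl (Or.inr ⟨by linarith, h3.1, ?_⟩)
          by_contra c4
          have hb1 := (big_or_sml h2.1).resolve_right c1.1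
          have hb2 := (big_or_sml h3.1).resolve_right c2
          have m1 : |x.2| ≤ |x.1| := by
            by_contra hcon
            push Not at hcon
            apply h4
            refine ⟨?_, hb1, by rw [hu.2.1]; exact c3, Or.inr (Or.inr ⟨mul_pos k6 hu.2.2.2.2, hcon⟩)⟩
            rw [abs_lt]
            constructor <;> linarith [hu.2.2.2.1, hu.2.2.2.2]
          have m2 : |x.2 + l| ≤ |x.1 - 1| := by
            by_contra hcon
            push Not at hcon
            apply h5
            refine ⟨?_, hb2, by rw [den_sub_one, hu.2.1]; exact c4,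
              Or.inr (Or.inr ⟨mul_pos_of_neg_of_neg k5 hu.2.2.2.1, hcon⟩)⟩
            rw [abs_lt]
            constructor <;> linarith [hu.2.2.2.1, hu.2.2.2.2]
          rw [abs_of_pos k6, abs_of_pos hu.2.2.2.2] at m1
          rw [abs_of_neg k5, abs_of_neg hu.2.2.2.1] at m2
          linarith
      refine card_le_card_of_injOn (fun x => (x.1, φ x.2)) ?_ ?_
      · intro x hx
        rw [mem_coe, mem_product]
        exact ⟨(h.rbu_data l x hx).1, (hφ x hx).1⟩
      · intro x hx y hy hxy
        have e1 := (hφ x hx).2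
        have e2 := (hφ y hy).2
        simp only [Prod.mk.injEq] at hxy
        refine Prod.ext hxy.1 ?_
        rcases e1 with e1 | e1 <;> rcases e2 with e2 | e2
        · rw [← e1.1, ← e2.1]; exact hxy.2
        · exfalso; linarith [hxy.2, e1.1, e1.2, e2.1, e2.2]
        · exfalso; linarith [hxy.2, e1.1, e1.2, e2.1, e2.2]
        · linarith [hxy.2, e1.1, e2.1]
    · have habs : |l| = l := abs_of_nonneg hpos
      have hL1 : 1 ≤ l := by rw [← habs]; exact hl'.2
      refine card_le_card ?_
      intro x hx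
      obtain ⟨h1, h2, h3, h4, h5⟩ := h.rbu_data l x hx
      rw [mem_win, habs] at h2 h3
      have k1 := abs_le.mp h2.2.1
      have k2 := abs_le.mp h3.2.1
      have k3 : x.2 ≤ 0 := by linarith [k2.2]
      have hu := mem_up.mp h1
      rw [mem_product]
      refine ⟨h1, ?_⟩
      rw [mem_union, mem_union]
      by_cases hg : L x.2.den = l
      · left; right
        exact h.in_gset l hl (by linarith) x hx (mem_gr.mpr ⟨h2.1, hg⟩) k3
      · rcases big_or_sml (L := L) h2.1 with hb | hs
        · rcases k3.eq_or_lt with k4 | k4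
          · right
            rw [mem_zset]
            rw [k4] at hb hg
            rw [Rat.den_zero] at hg
            exact ⟨hb, k4, hg⟩
          · exfalso
            apply h4
            refine ⟨?_, hb, by rw [hu.2.1]; exact hg, Or.inr (Or.inl ⟨hu.2.2.2.2, k4⟩)⟩
            rw [abs_lt]
            constructor <;> linarith [hu.2.2.2.1, hu.2.2.2.2]
        · exact Or.inl (Or.inl hs)
  rw [card_product] at hgoal
  refine hgoal.trans (Nat.mul_le_mul_left _ ?_)
  exact (card_union_le _ _).trans (Nat.add_le_add_right (card_union_le _ _) _)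

end

end Pool.Agent.Helper37.RG
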