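import Pool.Agent.Helper37.RG.Count
import Pool.Agent.Helper37.RS.Full9

/-!
# Dominated denominators: the theorem
-/

set_option autoImplicit false

namespace Pool.Agent.Helper37.RG

open Finset
open scoped Pointwise
open Pool.Agent.Helper37.RS (den_sub_one den_int three_case half_fracs crit_of_half diam_two)

section

variable {A : Finset ℚ} {q : ℕ} {L : ℕ → ℚ} {n : ℕ}

theorem Sg.x_gr (h : Sg A q L) (hL : L 1 = n) : gr A L n = A.filter (fun a => a.den = 1) := by
  ext b
  rw [mem_gr, mem_filter]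
  constructor
  · rintro ⟨hb, hbl⟩
    refine ⟨hb, h.int_group hb ?_⟩
    rw [hbl]
    exact Rat.den_natCast n
  · rintro ⟨hb, hd⟩
    exact ⟨hb, by rw [hd, hL]⟩

theorem x_zeroA (hx : ∀ z : ℤ, (z : ℚ) ∈ A ↔ |z| ≤ (n : ℤ)) : (0 : ℚ) ∈ A := by
  exact_mod_cast (hx 0).mpr (by simp)

theorem x_dbig (hx : ∀ z : ℤ, (z : ℚ) ∈ A ↔ |z| ≤ (n : ℤ)) (hn : 0 < n) (hL : L 1 = n) :
    (n : ℚ) ∈ dbig A L := by
  rw [mem_dbig, mem_mu]
  refine ⟨⟨0, x_zeroA hx, by rw [Rat.den_zero, hL]⟩, ?_⟩
  rw [Nat.abs_cast]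
  exact_mod_cast hn

theorem Sg.x_card (h : Sg A q L) (hx : ∀ z : ℤ, (z : ℚ) ∈ A ↔ |z| ≤ (n : ℤ)) (hL : L 1 = n) :
    (gr A L n).card = 2 * n + 1 := by
  rw [h.x_gr hL]
  exact RS.x_card hx

theorem Sg.x_up (h : Sg A q L) : (up A L n).card = 0 := by
  rw [card_eq_zero, eq_empty_iff_forall_notMem]
  intro b hb
  have hb' := mem_up.mp hb
  apply up_den hb
  apply h.int_group hb'.1
  rw [hb'.2.1]
  exact Rat.den_natCast n

theorem Sg.x_bo (h : Sg A q L) (hx : ∀ z : ℤ, (z : ℚ) ∈ A ↔ |z| ≤ (n : ℤ)) (hL : L 1 = n) :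
    (bo A L n).card = 1 := by
  have h1 : bo A L n = RS.bo A 1 := by
    ext b
    rw [mem_bo, RS.mem_bo]
    constructor
    · rintro ⟨hb, hbl, hb1⟩
      refine ⟨hb, h.int_group hb ?_, hb1⟩
      rw [hbl]
      exact Rat.den_natCast n
    · rintro ⟨hb, hd, hb1⟩
      exact ⟨hb, by rw [hd, hL], hb1⟩
  rw [h1]
  exact RS.x_bo hx

theorem Sg.x_st (h : Sg A q L) (hx : ∀ z : ℤ, (z : ℚ) ∈ A ↔ |z| ≤ (n : ℤ)) (hL : L 1 = n) :
    (st A L n).card = 2 * n := by
  have h1 := cls_card (A := A) (L := L) n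
  rw [h.x_card hx hL, h.x_up, h.x_bo hx hL] at h1
  omega

theorem Sg.x_am (h : Sg A q L) (hx : ∀ z : ℤ, (z : ℚ) ∈ A ↔ |z| ≤ (n : ℤ)) (hL : L 1 = n) :
    (am A L n).card = 2 * n := by
  have h1 : -(n : ℚ) ∈ gr A L n := by
    rw [h.x_gr hL, mem_filter]
    have h2 : ((-(n : ℤ) : ℤ) : ℚ) ∈ A := (hx _).mpr (by simp)
    constructor
    · exact_mod_cast h2
    · have := Rat.den_intCast (-(n : ℤ))
      push_cast at this
      exact this
  rw [am_eq, card_erase_of_mem h1, h.x_card hx hL]
  omega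

theorem Sg.x_delta (h : Sg A q L) (hx : ∀ z : ℤ, (z : ℚ) ∈ A ↔ |z| ≤ (n : ℤ)) (hn : 0 < n)
    (hL : L 1 = n) :
    ∑ l ∈ dbig A L, (2 * (up A L l).card * (gset A L l).card +
      (st A L l).card * ((st A L l).card + 1)) ≤
      ∑ l ∈ dbig A L, ((am A L l).card * (am A L l).card - (am A L l).card) + 4 * n := by
  classical
  have h1 : ∑ l ∈ dbig A L, ((am A L l).card * (am A L l).card - (am A L l).card) + 4 * n =
      ∑ l ∈ dbig A L, ((am A L l).card * (am A L l).card - (am A L l).card +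
        if l = n then 4 * n else 0) := by
    rw [sum_add_distrib, sum_ite_eq', if_pos (x_dbig hx hn hL)]
  rw [h1]
  refine sum_le_sum fun l hl => ?_
  by_cases hl1 : l = n
  · rw [if_pos hl1, hl1, h.x_up, h.x_st hx hL, h.x_am hx hL]
    have : 2 * n * (2 * n) - 2 * n = 2 * n * (2 * n - 1) := by rw [Nat.mul_sub, mul_one]
    rw [this]
    obtain ⟨m, rfl⟩ : ∃ m, n = m + 1 := ⟨n - 1, by omega⟩
    have h3 : 2 * (m + 1) - 1 = 2 * m + 1 := by omega
    rw [h3]
    nlinarith
  · rw [if_neg hl1, add_zero]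
    refine h.per hl (fun hm => ?_)
    rcases h.two_le hl hm with h2 | ⟨m, -, -, h2, -⟩
    · exact h2
    · exact absurd (h2.symm.trans hL) hl1

theorem Sg.x_big (h : Sg A q L) (hx : ∀ z : ℤ, (z : ℚ) ∈ A ↔ |z| ≤ (n : ℤ)) (hn : 0 < n)
    (hL : L 1 = n) : 2 * yy A L + 1 + 2 * n ≤ (big A L).card := by
  classical
  have h1 : ∑ l ∈ dbig A L, (2 * (up A L l).card + 1 + if l = n then 2 * n else 0) ≤
      (big A L).card := by
    rw [big_card]
    refine sum_le_sum fun l hl => ?_
    by_cases hl1 : l = n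
    · rw [if_pos hl1, hl1, h.x_up, h.x_card hx hL]
      omega
    · rw [if_neg hl1, add_zero]
      exact h.two_up l hl
  rw [sum_add_distrib, sum_ite_eq', if_pos (x_dbig hx hn hL), sum_add_distrib, ← mul_sum,
    ← card_eq_sum_ones] at h1
  have h2 : 1 ≤ (dbig A L).card := card_pos.mpr ⟨_, x_dbig hx hn hL⟩
  rw [yy]
  omega

theorem x_zero (hx : ∀ z : ℤ, (z : ℚ) ∈ A ↔ |z| ≤ (n : ℤ)) (hn : 0 < n) (hL : L 1 = n) :
    (0 : ℚ) ∈ big A L := by
  rw [mem_big]
  refine ⟨x_zeroA hx, ?_⟩
  rw [Rat.den_zero, hL]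
  exact (mem_dbig.mp (x_dbig hx hn hL)).2

theorem Sg.x_qq (h : Sg A q L) (hx : ∀ z : ℤ, (z : ℚ) ∈ A ↔ |z| ≤ (n : ℤ)) (hn : 0 < n)
    (hL : L 1 = n) (hn2 : n ≤ 2) (hs : sml A L = ∅) (hi : inn A L = ∅) :
    (qq A n).card ≤ n := by
  classical
  have hnp : (0 : ℚ) < n := by exact_mod_cast hn
  have hn2' : (n : ℚ) ≤ 2 := by exact_mod_cast hn2
  have hinn : ∀ b ∈ A, |b| < 1 → b.den = 1 := by
    intro b hb hb1
    by_contra hcon
    have h1 : b ∈ inn A L := by
      rw [inn, mem_filter]
      refine ⟨hb, hb1, ?_, ?_, x_zero hx hn hL⟩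
      · intro h2
        apply hcon
        apply h.int_group hb
        rw [h2, hL]
        exact Rat.den_natCast n
      · rcases big_or_sml (L := L) hb with h2 | h2
        · exact (mem_big.mp h2).2
        · rw [hs] at h2
          exact absurd h2 (notMem_empty _)
    rw [hi] at h1
    exact notMem_empty _ h1
  have hdata : ∀ x ∈ qq A n, x.1.den = 1 ∧ 0 < x.1 ∧ x.1 ≤ n ∧ x.2 = x.1 - n := by
    intro x hx'
    rw [mem_qq, mem_win, mem_win, abs_of_pos hnp] at hx'
    obtain ⟨⟨h1, h2, h3⟩, ⟨h4, h5, h6⟩, h7⟩ := hx'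
    rw [abs_le] at h2 h5
    have h8 : -(n : ℚ) < x.2 := lt_of_le_of_ne h5.1 (Ne.symm h6)
    have h9 : x.2 = x.1 - n := by linarith
    refine ⟨?_, by linarith, h2.2, h9⟩
    have h10 : x.2.den = x.1.den := by
      rw [h9]
      have := Rat.sub_intCast_den x.1 n
      exact_mod_cast this
    by_contra hcon
    have h11 : ¬ |x.1| < 1 := fun h12 => hcon (hinn _ h1 h12)
    have h12 : ¬ |x.2| < 1 := fun h12 => hcon (h10 ▸ hinn _ h4 h12)
    rw [abs_of_pos (by linarith)] at h11
    push Not at h11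
    rcases h11.eq_or_lt with h13 | h13
    · apply hcon
      rw [← h13]
      rfl
    · apply h12
      rw [abs_lt]
      constructor
      · linarith
      · linarith
  have h1 : (qq A n).card ≤ (Finset.Icc (1 : ℤ) n).card := by
    refine card_le_card_of_injOn (fun x => x.1.num) ?_ ?_
    · intro x hx'
      obtain ⟨h1, h2, h3, h4⟩ := hdata x (mem_coe.mp hx')
      rw [mem_coe, Finset.mem_Icc]
      have h5 := (Rat.den_eq_one_iff x.1).mp h1
      rw [← h5] at h2 h3
      have h6 : 0 < x.1.num := by exact_mod_cast h2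
      have h7 : x.1.num ≤ n := by exact_mod_cast h3
      refine ⟨?_, h7⟩
      change 1 ≤ x.1.num
      omega
    · intro x hx' y hy' hxy
      obtain ⟨h1, h2, h3, h4⟩ := hdata x (mem_coe.mp hx')
      obtain ⟨k1, k2, k3, k4⟩ := hdata y (mem_coe.mp hy')
      simp only at hxy
      have h5 := (Rat.den_eq_one_iff x.1).mp h1
      have h6 := (Rat.den_eq_one_iff y.1).mp k1
      have h7 : x.1 = y.1 := by rw [← h5, ← h6, hxy]
      refine Prod.ext h7 ?_
      rw [h4, k4, h7]
  rw [Int.card_Icc] at h1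
  omega

theorem Sg.x_full (h : Sg A q L) (hx : ∀ z : ℤ, (z : ℚ) ∈ A ↔ |z| ≤ (n : ℤ)) (hn : 0 < n)
    (hL : L 1 = n) : (A + A).card ≤ (A * A + A).card := by
  classical
  have h0b := x_zero hx hn hL
  have hneb : (big A L).Nonempty := ⟨0, h0b⟩
  have hneA : A.Nonempty := ⟨0, (mem_big.mp h0b).1⟩
  obtain ⟨a₀, ha₀, hmax⟩ := exists_max_image A (fun a => |a|) hneA
  have hc := h.count (4 * n) (h.x_delta hx hn hL) a₀ ha₀
  obtain ⟨g1, g2, g3⟩ := h.gain hneb
  have hE := h.den_E a₀ hmax _ h.st_dbig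
  have hE2 := h.den_E a₀ hmax
  set E := (dbig A L).filter (fun l => |l| < |a₀|) with hEdef
  have hnq : (1 : ℚ) ≤ n := by exact_mod_cast hn
  have hndb := x_dbig hx hn hL
  rcases (sml A L).eq_empty_or_nonempty with hs | hs
  · have h1D : (n : ℚ) ∈ mu A L := (mem_dbig.mp hndb).1
    have hpos : 0 < ∑ l ∈ mu A L, (st A L l).card := by
      refine lt_of_lt_of_le ?_ (single_le_sum (f := fun l => (st A L l).card)
        (fun _ _ => Nat.zero_le _) h1D)
      rw [h.x_st hx hL]
      omega
    have hds : ∀ b ∈ A, L b.den ∈ dbig A L := by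
      intro b hb
      rcases big_or_sml (L := L) hb with h2 | h2
      · exact mem_dbig.mpr ⟨mem_mu.mpr ⟨b, hb, rfl⟩, (mem_big.mp h2).2⟩
      · rw [hs] at h2
        exact absurd h2 (notMem_empty _)
    have hE1 : ∀ b ∈ A, L b.den ≠ n → 1 ≤ E.card := by
      intro b hb hd1
      have h2 := hE2 {(n : ℚ), L b.den} (by
        intro t ht
        rw [mem_insert, mem_singleton] at ht
        rcases ht with rfl | rfl
        · exact hndb
        · exact hds b hb)
      rw [card_pair (Ne.symm hd1)] at h2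
      omega
    obtain ⟨r1, r2, r3⟩ := arith2 (mu A L) (fun l => (st A L l).card)
      (fun l => (qq A l).card) (n : ℚ) (A.filter (fun b => 0 ≤ b ∧ b + 1 ∈ A)).card
      (A.filter (fun b => b + 1 ≤ 0 ∧ b + 1 ∈ A)).card E.card n st_sum h1D (h.x_st hx hL) hn hE
    by_cases hthree : n = 1 ∧ inn A L = ∅ ∧ E.card = 0
    · obtain ⟨rfl, hi, hE0⟩ := hthree
      have hA : A = {-1, 0, 1} := by
        ext a
        constructor
        · intro ha
          have hd : a.den = 1 := by
            by_contra hcon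
            have h3 : L a.den ≠ ((1 : ℕ) : ℚ) := by
              intro h4
              apply hcon
              apply h.int_group ha
              rw [h4]
              exact Rat.den_natCast 1
            have := hE1 a ha h3
            omega
          obtain ⟨z, rfl⟩ := den_int a hd
          have h2 := (hx z).mp ha
          rw [abs_le] at h2
          have h3 : z = -1 ∨ z = 0 ∨ z = 1 := by omega
          rcases h3 with rfl | rfl | rfl <;> simp
        · intro ha
          rw [mem_insert, mem_insert, mem_singleton] at ha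
          rcases ha with rfl | rfl | rfl
          · exact_mod_cast (hx (-1)).mpr (by simp)
          · exact_mod_cast (hx 0).mpr (by simp)
          · exact_mod_cast (hx 1).mpr (by simp)
      rw [hA]
      exact three_case
    · refine h.finish' (fun l => (st A L l).card) E.card _
        (2 * (inn A L).card - 2 * zz A L) (4 * n)
        (A.filter (fun b => 0 ≤ b ∧ b + 1 ∈ A)) (A.filter (fun b => b + 1 ≤ 0 ∧ b + 1 ∈ A))
        (fun b hb => ⟨(mem_filter.mp hb).2.1, (mem_filter.mp hb).1, (mem_filter.mp hb).2.2⟩)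
        (fun b hb => ⟨(mem_filter.mp hb).2.1, (mem_filter.mp hb).1, (mem_filter.mp hb).2.2⟩)
        st_sum hpos ?_ ?_
      · push_cast at hc
        linarith
      · rcases Nat.lt_or_ge 2 n with hn3 | hn3
        · have hn3' : (3 : ℚ) ≤ n := by exact_mod_cast hn3
          nlinarith
        · rcases (inn A L).eq_empty_or_nonempty with hi | hi
          · have h4 := r3 (h.x_qq hx hn hL hn3 hs hi)
            have hn12 : n = 1 ∨ n = 2 := by omega
            rcases hn12 with rfl | rfl
            · have h5 : 1 ≤ E.card := by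
                by_contra hcon
                exact hthree ⟨rfl, hi, by omega⟩
              have h6 : (1 : ℚ) ≤ E.card := by exact_mod_cast h5
              push_cast at h4 ⊢
              linarith
            · have h6 : (0 : ℚ) ≤ E.card := Nat.cast_nonneg _
              push_cast at h4 ⊢
              linarith
          · have h5 : 1 ≤ (inn A L).card := card_pos.mpr hi
            have h6 := zz_inn (A := A) (L := L)
            have h7 : zz A L + 1 ≤ (inn A L).card := by omega
            have h8 : (zz A L : ℚ) + 1 ≤ (inn A L).card := by exact_mod_cast h7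
            obtain ⟨b, hb⟩ := hi
            rw [inn, mem_filter] at hb
            have h9 := r2 (hE1 b hb.1 (by rw [← hL]; exact hb.2.2.1))
            have hn12 : n = 1 ∨ n = 2 := by omega
            rcases hn12 with rfl | rfl
            · push_cast at h9 ⊢
              linarith
            · push_cast at h9 ⊢
              linarith
  · have h4 : (4 * n : ℚ) ≤ (sml A L).card * ((big A L).card - 2 * yy A L - 1) +
        (2 * (ks A L).card - (sml A L).card * A.card) := by
      have h5 : 2 * (yy A L : ℚ) + 1 + 2 * n ≤ (big A L).card := by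
        exact_mod_cast h.x_big hx hn hL
      have h6 : 1 ≤ (sml A L).card := card_pos.mpr hs
      rcases h6.eq_or_lt with h7 | h7
      · have h8 := h.card_ks
        rw [← h7, one_mul] at h8
        have h9 : A.card ≤ (ks A L).card := by
          rw [ks, card_product] at h8 ⊢
          have hAc : 0 < A.card := card_pos.mpr hneA
          rcases Nat.eq_zero_or_pos ((sml A L).filter (fun b => b - 1 ∉ A)).card with h10 | h10
          · rw [h10] at h8
            omega
          · exact Nat.le_mul_of_pos_left _ h10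
        have h10 : (A.card : ℚ) ≤ (ks A L).card := by exact_mod_cast h9
        have h11 : (A.card : ℚ) = (big A L).card + (sml A L).card := by
          exact_mod_cast card_split (A := A) (L := L)
        have h12 : ((sml A L).card : ℚ) = 1 := by exact_mod_cast h7.symm
        have h13 : (0 : ℚ) ≤ yy A L := Nat.cast_nonneg _
        rw [h12] at h11 ⊢
        linarith
      · have h8 : (2 : ℚ) ≤ (sml A L).card := by exact_mod_cast h7
        nlinarith
    refine h.finish (fun l => (st A L l).card) _ _ (A.filter (fun b => 0 ≤ b ∧ b + 1 ∈ A))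
      (A.filter (fun b => b + 1 ≤ 0 ∧ b + 1 ∈ A))
      (fun b hb => ⟨(mem_filter.mp hb).2.1, (mem_filter.mp hb).1, (mem_filter.mp hb).2.2⟩)
      (fun b hb => ⟨(mem_filter.mp hb).2.1, (mem_filter.mp hb).1, (mem_filter.mp hb).2.2⟩)
      st_sum hE ?_
    push_cast at hc
    linarith

end

/-- **All finite sets of rational numbers with dominated denominators.** -/
theorem dominated (A : Finset ℚ) (q : ℕ) (hA : ∀ a ∈ A, a.den ∣ q)
    (hD : ∀ b ∈ A, ∃ c ∈ A, |b| ≤ |c| ∧ Nat.Coprime b.den (q / c.den)) :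
    (A + A).card ≤ (A * A + A).card := by
  classical
  obtain ⟨L, h⟩ := exists_Sg A q hA hD
  rcases (big A L).eq_empty_or_nonempty with hb | hb
  · refine half_fracs A q hA (fun b hb => ?_) (crit_of_half A (diam_two A ?_))
    · exact ⟨L b.den, h.mem b hb, h.cop b hb⟩
    · have h1 : ∀ x ∈ A, |x| < 1 := by
        intro x hx
        rcases big_or_sml (L := L) hx with h2 | h2
        · rw [hb] at h2
          exact absurd h2 (notMem_empty _)
        · exact (h.le x hx).trans_lt (mem_sml.mp h2).2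
      intro x hx y hy
      have h2 := abs_lt.mp (h1 x hx)
      have h3 := abs_lt.mp (h1 y hy)
      rw [abs_lt]
      constructor
      · linarith [h2.1, h3.2]
      · linarith [h2.2, h3.1]
  · by_cases hx : ∃ n : ℕ, 0 < n ∧ L 1 = n ∧ ∀ z : ℤ, (z : ℚ) ∈ A ↔ |z| ≤ (n : ℤ)
    · obtain ⟨n, hn, hL, hx⟩ := hx
      exact h.x_full hx hn hL
    · refine h.full hb ?_
      intro l hl hm
      rcases h.two_le hl hm with h2 | ⟨n, hn, h3, h4, h5⟩
      · exact h2
      · exact absurd ⟨n, hn, h4.trans h3, h5⟩ hx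

end Pool.Agent.Helper37.RG
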