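import Pool.Agent.Helper37.RG.Arith

/-!
# Sets of rational numbers of both signs with dominated denominators
-/

set_option autoImplicit false

namespace Pool.Agent.Helper37.RG

open Finset
open scoped Pointwise
open Pool.Agent.Helper37.RS (den_dvd int_sub val card_le exists_sel den_sub_one small_z mx fib
  mem_mx mem_fib sum_inv)

/-- the elements of `A` at most the multiplier, without minus the multiplier -/
def win (A : Finset ℚ) (l : ℚ) : Finset ℚ := A.filter (fun a => |a| ≤ |l| ∧ a ≠ -l)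

/-- the pairs of elements -/
def od (A : Finset ℚ) (L : ℕ → ℚ) : Finset (ℚ × ℚ) :=
  (A ×ˢ A).filter (fun x => x.2 ∈ win A (L x.1.den) ∨ (x.1 = x.2 ∧ x.1 = -L x.1.den))

/-- the steps -/
def stp (A : Finset ℚ) (l : ℚ) (L : ℕ → ℚ) : Finset ℚ :=
  A.filter (fun b => L b.den = l ∧ b - 1 ∈ A)

/-- the pairs with difference the absolute value of the multiplier -/
def qq (A : Finset ℚ) (l : ℚ) : Finset (ℚ × ℚ) :=
  (win A l ×ˢ win A l).filter (fun x => x.1 - x.2 = |l|)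

/-- the multipliers -/
def mu (A : Finset ℚ) (L : ℕ → ℚ) : Finset ℚ := A.image (fun a => L a.den)

/-- the properties of the multipliers -/
structure Sg (A : Finset ℚ) (q : ℕ) (L : ℕ → ℚ) : Prop where
  dvd : ∀ a ∈ A, a.den ∣ q
  mem : ∀ b ∈ A, L b.den ∈ A
  idem : ∀ b ∈ A, L (L b.den).den = L b.den
  le : ∀ b ∈ A, |b| ≤ |L b.den|
  cop : ∀ b ∈ A, Nat.Coprime b.den (q / (L b.den).den)
  neg : ∀ b ∈ A, L b.den < 0 → -L b.den ∉ A

theorem sign_eq (A : Finset ℚ) (x y : ℚ) (hx : x ∈ A) (hy : y ∈ A) (hx' : x < 0 → -x ∉ A)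
    (hy' : y < 0 → -y ∉ A) (h : |x| = |y|) : x = y := by
  rcases abs_eq_abs.mp h with h1 | h1
  · exact h1
  · rcases lt_trichotomy y 0 with h2 | h2 | h2
    · exact absurd (h1 ▸ hx) (hy' h2)
    · rw [h1, h2, neg_zero]
    · exfalso
      apply hx' (by linarith)
      rw [h1, neg_neg]
      exact hy

theorem exists_Sg (A : Finset ℚ) (q : ℕ) (hA : ∀ a ∈ A, a.den ∣ q)
    (hD : ∀ b ∈ A, ∃ c ∈ A, |b| ≤ |c| ∧ Nat.Coprime b.den (q / c.den)) : ∃ L, Sg A q L := by
  classical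
  obtain ⟨L₀, hL₀⟩ := exists_sel A (fun d c => Nat.Coprime d (q / c.den))
  set L : ℕ → ℚ := fun d => if -L₀ d ∈ A ∧ L₀ d < 0 then -L₀ d else L₀ d with hL
  have key : ∀ b ∈ A, L b.den ∈ A ∧ Nat.Coprime b.den (q / (L b.den).den) ∧
      (∀ a ∈ A, Nat.Coprime b.den (q / a.den) → |a| ≤ |L b.den|) ∧
      (L b.den < 0 → -L b.den ∉ A) := by
    intro b hb
    obtain ⟨c, hc, -, hcop⟩ := hD b hb
    obtain ⟨h1, h2, h3⟩ := hL₀ b.den ⟨c, hc, hcop⟩
    simp only [hL]
    split_ifs with h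
    · refine ⟨h.1, ?_, ?_, ?_⟩
      · rw [Rat.neg_den]; exact h2
      · intro a ha hac
        rw [abs_neg]; exact h3 a ha hac
      · intro h'
        linarith [h.2]
    · refine ⟨h1, h2, h3, ?_⟩
      intro h' h''
      exact h ⟨h'', h'⟩
  refine ⟨L, hA, fun b hb => (key b hb).1, ?_, ?_, fun b hb => (key b hb).2.1,
    fun b hb => (key b hb).2.2.2⟩
  · intro b hb
    obtain ⟨k1, k2, k3, k4⟩ := key b hb
    obtain ⟨m1, m2, m3, m4⟩ := key (L b.den) k1
    have hsub : ∀ c : ℚ, Nat.Coprime (L b.den).den (q / c.den) →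
        Nat.Coprime b.den (q / c.den) := by
      intro c hc
      rw [Nat.coprime_iff_isRelPrime] at *
      by_contra hcon
      rw [← Nat.coprime_iff_isRelPrime, Nat.Prime.not_coprime_iff_dvd] at hcon
      obtain ⟨p, hp, hp1, hp2⟩ := hcon
      have h1 : p ∣ q := hp1.trans (hA b hb)
      have h2 : p ∣ (L b.den).den * (q / (L b.den).den) := by
        rw [Nat.mul_div_cancel' (hA _ k1)]
        exact h1
      rcases (Nat.Prime.dvd_mul hp).mp h2 with h3 | h3
      · exact absurd (Nat.isUnit_iff.mp (hc h3 hp2)) hp.one_lt.ne'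
      · exact absurd (Nat.isUnit_iff.mp (k2 hp1 h3)) hp.one_lt.ne'
    obtain ⟨c', hc', hle, hcop'⟩ := hD (L b.den) k1
    have h1 : |c'| = |L b.den| := le_antisymm (k3 c' hc' (hsub c' hcop')) hle
    have h2 : c'.den = (L b.den).den := by
      rcases abs_eq_abs.mp h1 with h3 | h3
      · rw [h3]
      · rw [h3, Rat.neg_den]
    rw [h2] at hcop'
    have h3 : |L b.den| ≤ |L (L b.den).den| := m3 _ k1 hcop'
    have h4 : |L (L b.den).den| ≤ |L b.den| := k3 _ m1 (hsub _ m2)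
    exact sign_eq A _ _ m1 k1 m4 k4 (le_antisymm h4 h3)
  · intro b hb
    obtain ⟨c, hc, hle, hcop⟩ := hD b hb
    exact hle.trans ((key b hb).2.2.1 c hc hcop)

section

variable {A : Finset ℚ} {q : ℕ} {L : ℕ → ℚ}

theorem Sg.eq (h : Sg A q L) (b a b' a' : ℚ) (hb : b ∈ A) (ha : a ∈ A) (hb' : b' ∈ A)
    (ha' : a' ∈ A) (hv : L b.den * b + a = L b'.den * b' + a') :
    b.den = b'.den ∧ ∃ z : ℤ, b = b' + z ∧ L b.den * z = a' - a := by
  have d1 := den_dvd q (L b.den) b a (L b'.den) b' a' (h.dvd _ (h.mem b hb))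
    (h.dvd _ (h.mem b' hb')) (h.dvd _ hb) (h.dvd _ ha) (h.dvd _ ha') (h.cop b hb) hv
  have d2 := den_dvd q (L b'.den) b' a' (L b.den) b a (h.dvd _ (h.mem b' hb'))
    (h.dvd _ (h.mem b hb)) (h.dvd _ hb') (h.dvd _ ha') (h.dvd _ ha) (h.cop b' hb') hv.symm
  have d : b.den = b'.den := Nat.dvd_antisymm d1 d2
  rw [← d] at hv
  obtain ⟨z, hz⟩ := int_sub q (L b.den) b a b' a' (h.dvd _ (h.mem b hb)) (h.dvd _ hb)
    (h.dvd _ ha) (h.dvd _ ha') d (h.cop b hb) hv
  refine ⟨d, z, hz, ?_⟩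
  rw [hz] at hv
  rw [hz]
  linear_combination hv

theorem mem_win {a l : ℚ} : a ∈ win A l ↔ a ∈ A ∧ |a| ≤ |l| ∧ a ≠ -l := by
  simp [win]

theorem win_ne {a l : ℚ} (ha : a ∈ win A l) : l ≠ 0 := by
  intro h0
  rw [mem_win, h0] at ha
  obtain ⟨-, h1, h2⟩ := ha
  rw [abs_zero] at h1
  have := abs_eq_zero.mp (le_antisymm h1 (abs_nonneg a))
  simp [this] at h2

theorem mem_od {x : ℚ × ℚ} : x ∈ od A L ↔ x.1 ∈ A ∧ x.2 ∈ A ∧
    (x.2 ∈ win A (L x.1.den) ∨ (x.1 = x.2 ∧ x.1 = -L x.1.den)) := by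
  simp [od, and_assoc]

/-- a special pair has no partner -/
theorem Sg.special (h : Sg A q L) (b a b' a' l : ℚ) (hb : b ∈ A) (ha' : |a'| ≤ |l|)
    (hlb : L b.den = l) (hle : |b'| ≤ |l|) (h1 : b = a) (h2 : b = -l) (z : ℤ)
    (hz : b = b' + z) (hL : l * z = a' - a) : z = 0 := by
  have hl0 : 0 ≤ l := by
    by_contra hcon
    push Not at hcon
    have := h.neg b hb (by rw [hlb]; exact hcon)
    rw [hlb, ← h2] at this
    exact this hb
  rw [abs_of_nonneg hl0] at hle ha'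
  rw [abs_le] at hle ha'
  rcases hl0.eq_or_lt with h0 | h0
  · rw [← h0] at hle h2
    have h3 : (z : ℚ) = 0 := by
      have := hle.1
      have := hle.2
      rw [h2] at hz
      linarith
    exact_mod_cast h3
  · have h3 : (z : ℚ) ≤ 0 := by
      have := hle.1
      rw [h2] at hz
      linarith
    have h4 : (0 : ℚ) ≤ z := by
      by_contra hcon
      push Not at hcon
      have : l * z < 0 := mul_neg_of_pos_of_neg h0 hcon
      have := ha'.1
      linarith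
    exact_mod_cast le_antisymm h3 h4

/-- the collisions of the values -/
theorem Sg.coll (h : Sg A q L) (x y : ℚ × ℚ) (hx : x ∈ od A L) (hy : y ∈ od A L)
    (hv : val L x = val L y) : x = y ∨ (x.1 - 1, x.2 + L x.1.den) = y ∨
      (y.1 - 1, y.2 + L y.1.den) = x := by
  obtain ⟨b, a⟩ := x
  obtain ⟨b', a'⟩ := y
  rw [mem_od] at hx hy
  simp only at hx hy
  obtain ⟨hb, ha, hx⟩ := hx
  obtain ⟨hb', ha', hy⟩ := hy
  simp only [RS.val] at hv
  obtain ⟨hd, z, hz, hL⟩ := h.eq b a b' a' hb ha hb' ha' hv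
  have hle := h.le b hb
  have hle' := h.le b' hb'
  rw [← hd] at hy hle'
  have hneg := h.neg b hb
  have h0 : z = 0 ∨ z = 1 ∨ z = -1 := by
    rcases hx with hx | ⟨h1, h2⟩
    · rcases hy with hy | ⟨h1, h2⟩
      · exact small_z (L b.den) a a' z (mem_win.mp hx).2.1 (mem_win.mp hy).2.1
          (mem_win.mp hx).2.2 (mem_win.mp hy).2.2 hL (win_ne hx)
      · left
        have h3 := h.special b' a' b a (L b.den) hb' (mem_win.mp hx).2.1 (by rw [hd]) hle h1 h2
          (-z) (by push_cast; linear_combination -hz) (by push_cast; linear_combination -hL)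
        omega
    · left
      have h3 : |a'| ≤ |L b.den| := by
        rcases hy with hy | ⟨h4, -⟩
        · exact (mem_win.mp hy).2.1
        · rw [← h4]; exact hle'
      exact h.special b a b' a' (L b.den) hb h3 rfl hle' h1 h2 z hz hL
  rcases h0 with rfl | rfl | rfl
  · left
    simp only [Int.cast_zero, add_zero, mul_zero] at hz hL
    rw [hz]
    congr 1
    linarith
  · right; left
    simp only [Int.cast_one, mul_one] at hz hL
    rw [Prod.mk.injEq]
    exact ⟨by linarith, by linarith⟩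
  · right; right
    simp only [Int.cast_neg, Int.cast_one, mul_neg, mul_one] at hz hL
    rw [Prod.mk.injEq]
    simp only
    rw [← hd]
    exact ⟨by linarith, by linarith⟩

/-- what is left out -/
theorem Sg.mem_rm (h : Sg A q L) (x : ℚ × ℚ) (hx : x ∈ od A L)
    (hx' : (x.1 - 1, x.2 + L x.1.den) ∈ od A L) :
    x.1 - 1 ∈ A ∧ x.2 ∈ win A (L x.1.den) ∧ x.2 + L x.1.den ∈ win A (L x.1.den) := by
  obtain ⟨b, a⟩ := x
  rw [mem_od] at hx hx'
  simp only at hx hx' ⊢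
  obtain ⟨hb, ha, h1⟩ := hx
  obtain ⟨hb', ha', h2⟩ := hx'
  rw [den_sub_one] at h2
  have hle := h.le (b - 1) hb'
  rw [den_sub_one] at hle
  have h3 : a ∈ win A (L b.den) := by
    rcases h1 with h1 | ⟨-, h1⟩
    · exact h1
    · exfalso
      have hl0 : 0 ≤ L b.den := by
        by_contra hcon
        push Not at hcon
        have := h.neg b hb hcon
        rw [← h1] at this
        exact this hb
      rw [abs_of_nonneg hl0, abs_le] at hle
      linarith [hle.1]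
  refine ⟨hb', h3, ?_⟩
  rcases h2 with h2 | ⟨h4, h5⟩
  · exact h2
  · exfalso
    have h6 : a = -2 * L b.den := by linarith
    have h7 := (mem_win.mp h3).2.1
    have h8 := win_ne h3
    rw [h6, abs_mul] at h7
    have h9 : 0 < |L b.den| := abs_pos.mpr h8
    norm_num at h7
    linarith

theorem mem_qq {x : ℚ × ℚ} {l : ℚ} : x ∈ qq A l ↔ x.1 ∈ win A l ∧ x.2 ∈ win A l ∧
    x.1 - x.2 = |l| := by
  simp [qq, and_assoc]

theorem mem_mu {l : ℚ} : l ∈ mu A L ↔ ∃ b ∈ A, L b.den = l := by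
  simp [mu]

/-- the elements with multiplier `l` except `-l` -/
def am (A : Finset ℚ) (L : ℕ → ℚ) (l : ℚ) : Finset ℚ :=
  A.filter (fun a => L a.den = l ∧ a ≠ -l)

theorem qq_sub {x : ℚ × ℚ} {l : ℚ} (hx : x ∈ qq A l) : x ∈ mx A := by
  rw [mem_qq, mem_win, mem_win] at hx
  obtain ⟨⟨h1, h2, -⟩, ⟨h3, h4, -⟩, h5⟩ := hx
  rw [abs_le] at h2 h4
  rw [mem_mx]
  exact ⟨⟨h1, by linarith [h4.1]⟩, h3, by linarith [h2.2]⟩

/-- the multipliers that reflect the pair `m` -/
def cl (A : Finset ℚ) (L : ℕ → ℚ) (m : ℚ × ℚ) : Finset ℚ :=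
  (mu A L).filter (fun l => (m.1, m.1 - |l|) ∈ qq A l ∧
    (m.2 + |l|, m.2) ∈ qq A l ∧ m.1 ≠ m.2 + |l|)

theorem Sg.abs_inj (h : Sg A q L) {l l' : ℚ} (hl : l ∈ mu A L) (hl' : l' ∈ mu A L)
    (he : |l| = |l'|) : l = l' := by
  obtain ⟨b, hb, rfl⟩ := mem_mu.mp hl
  obtain ⟨b', hb', rfl⟩ := mem_mu.mp hl'
  exact sign_eq A _ _ (h.mem b hb) (h.mem b' hb') (h.neg b hb) (h.neg b' hb') he

theorem Sg.cl_card (h : Sg A q L) (m : ℚ × ℚ) (hm : m ∈ mx A) :
    (cl A L m).card + 1 ≤ (fib A m).card := by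
  classical
  have h1 : (cl A L m).card ≤ ((fib A m).erase m).card := by
    refine card_le_card_of_injOn (fun l => (m.2 + |l|, m.1 - |l|)) ?_ ?_
    · intro d hd
      rw [mem_coe, cl, mem_filter] at hd
      obtain ⟨-, h1, h2, h3⟩ := hd
      have k1 := qq_sub h1
      have k2 := qq_sub h2
      rw [mem_mx] at k1 k2
      rw [mem_coe, mem_erase, mem_fib, mem_mx]
      refine ⟨?_, ⟨k2.1, k1.2⟩, by ring⟩
      intro h4
      apply h3
      rw [← h4]
      simp only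
      have h5 : m.1 = m.2 + |d| := by
        have := congrArg Prod.fst h4
        exact this.symm
      linarith
    · intro d hd d' hd' hdd
      rw [mem_coe, cl, mem_filter] at hd hd'
      simp only [Prod.mk.injEq] at hdd
      exact h.abs_inj hd.1 hd'.1 (by linarith [hdd.1])
  have h2 : m ∈ fib A m := mem_fib.mpr ⟨hm, rfl⟩
  rw [card_erase_of_mem h2] at h1
  have h3 : 0 < (fib A m).card := card_pos.mpr ⟨m, h2⟩
  omega

theorem qq_off (l : ℚ) : ((qq A l).offDiag).card =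
    ((mx A).filter (fun m => (m.1, m.1 - |l|) ∈ qq A l ∧
    (m.2 + |l|, m.2) ∈ qq A l ∧ m.1 ≠ m.2 + |l|)).card := by
  classical
  refine card_bij (fun p _ => (p.1.1, p.2.2)) ?_ ?_ ?_
  · rintro ⟨x, y⟩ hxy
    rw [mem_offDiag] at hxy
    obtain ⟨hx, hy, hne⟩ := hxy
    simp only at hx hy hne ⊢
    have k1 := (mem_qq.mp hx).2.2
    have k2 := (mem_qq.mp hy).2.2
    have e1 : (x.1, x.1 - |l|) = x := Prod.ext rfl (by simp only; linarith)
    have e2 : (y.2 + |l|, y.2) = y := Prod.ext (by simp only; linarith) rfl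
    rw [mem_filter]
    simp only
    rw [e1, e2]
    refine ⟨mem_mx.mpr ⟨(mem_mx.mp (qq_sub hx)).1, (mem_mx.mp (qq_sub hy)).2⟩, hx, hy, ?_⟩
    intro h4
    apply hne
    refine Prod.ext ?_ ?_
    · linarith
    · linarith
  · rintro ⟨x, y⟩ hxy ⟨x', y'⟩ hxy' h1
    rw [mem_offDiag] at hxy hxy'
    obtain ⟨hx, hy, -⟩ := hxy
    obtain ⟨hx', hy', -⟩ := hxy'
    simp only [Prod.mk.injEq] at hx hy hx' hy' h1
    have k1 := (mem_qq.mp hx).2.2
    have k2 := (mem_qq.mp hy).2.2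
    have k1' := (mem_qq.mp hx').2.2
    have k2' := (mem_qq.mp hy').2.2
    refine Prod.ext (Prod.ext h1.1 ?_) (Prod.ext ?_ h1.2)
    · simp only; linarith [h1.1]
    · simp only; linarith [h1.2]
  · intro m hm
    rw [mem_filter] at hm
    obtain ⟨-, h1, h2, h3⟩ := hm
    refine ⟨((m.1, m.1 - |l|), (m.2 + |l|, m.2)), ?_, rfl⟩
    rw [mem_offDiag]
    refine ⟨h1, h2, ?_⟩
    intro h4
    exact h3 (Prod.mk.inj h4).1

/-- the reflections give coincidences of the sums -/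
theorem Sg.mixed (h : Sg A q L) (w : ℚ → ℚ)
    (hw : ∀ C ⊆ mu A L, ∀ m : ℕ, C.card + 1 ≤ m → ∑ d ∈ C, w d ≤ 2 * (1 - 1 / m)) :
    ∑ d ∈ mu A L, w d * (((qq A d).card : ℚ) * ((qq A d).card - 1)) ≤
      2 * ((mx A).card - (A.filter (fun a => 0 ≤ a) + A.filter (fun a => a ≤ 0)).card) := by
  classical
  have h1 : ∀ d, ((qq A d).card : ℚ) * ((qq A d).card - 1) =
      ∑ m ∈ mx A, if (m.1, m.1 - |d|) ∈ qq A d ∧
        (m.2 + |d|, m.2) ∈ qq A d ∧ m.1 ≠ m.2 + |d| then (1 : ℚ) else 0 := by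
    intro d
    have h2 := qq_off (A := A) d
    rw [offDiag_card] at h2
    rw [sum_boole, ← h2]
    have h3 : (qq A d).card ≤ (qq A d).card * (qq A d).card := Nat.le_mul_self _
    push_cast [Nat.cast_sub h3]
    ring
  have h2 : ∑ d ∈ mu A L, w d * (((qq A d).card : ℚ) * ((qq A d).card - 1)) =
      ∑ m ∈ mx A, ∑ d ∈ cl A L m, w d := by
    simp_rw [h1, mul_sum]
    rw [sum_comm]
    refine sum_congr rfl fun m _ => ?_
    rw [cl, sum_filter]
    refine sum_congr rfl fun d _ => ?_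
    split_ifs <;> simp
  rw [h2, ← sum_inv A]
  have h3 : ((mx A).card : ℚ) = ∑ x ∈ mx A, (1 : ℚ) := by simp
  rw [h3, ← sum_sub_distrib, mul_sum]
  refine sum_le_sum fun m hm => ?_
  exact hw _ (filter_subset _ _) _ (h.cl_card m hm)

/-- a general form of the count of the values -/
theorem Sg.values_gen (h : Sg A q L) (P : Finset (ℚ × ℚ)) (hP : ∀ x ∈ P, x.1 ∈ A ∧ x.2 ∈ A)
    (hinj : ∀ x ∈ P, ∀ y ∈ P, val L x = val L y → x = y) (a₀ : ℚ) (ha₀ : a₀ ∈ A)
    (E : Finset ℚ) (hED : E ⊆ mu A L) (hE : ∀ l ∈ E, |l| < |a₀| ∧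
      ∀ x ∈ P, L x.1.den = l → |x.2| ≤ |l|) : P.card + E.card ≤ (A * A + A).card := by
  classical
  have hE2 : ∀ l ∈ E, l ∈ A ∧ L l.den = l := by
    intro l hl
    obtain ⟨b, hb, rfl⟩ := mem_mu.mp (hED hl)
    exact ⟨h.mem b hb, h.idem b hb⟩
  have hsel : ∀ l : ℚ, ∃ b : ℚ, l ∈ E → b ∈ A ∧ b.den = l.den ∧
      ∀ b' ∈ A, b'.den = l.den → 0 ≤ a₀ * (l * b - l * b') := by
    intro l
    by_cases hl : l ∈ E
    · obtain ⟨b, hb, hmax⟩ := exists_max_image (A.filter (fun a => a.den = l.den))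
        (fun b => a₀ * (l * b)) ⟨l, mem_filter.mpr ⟨(hE2 l hl).1, rfl⟩⟩
      rw [mem_filter] at hb
      refine ⟨b, fun _ => ⟨hb.1, hb.2, fun b' hb' hd' => ?_⟩⟩
      have := hmax b' (mem_filter.mpr ⟨hb', hd'⟩)
      rw [mul_sub]
      linarith
    · exact ⟨0, fun h' => absurd h' hl⟩
  choose β hβ using hsel
  set X := E.image (fun l => (β l, a₀)) with hX
  have hXm : ∀ x ∈ X, x.1 ∈ A ∧ x.2 = a₀ ∧ L x.1.den ∈ E ∧ β (L x.1.den) = x.1 ∧
      x.1.den = (L x.1.den).den := by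
    intro x hx
    rw [hX, mem_image] at hx
    obtain ⟨l, hl, rfl⟩ := hx
    obtain ⟨h1, h2, h3⟩ := hβ l hl
    have h4 : L (β l).den = l := by rw [h2]; exact (hE2 l hl).2
    refine ⟨h1, rfl, ?_, ?_, ?_⟩
    · simp only; rw [h4]; exact hl
    · simp only; rw [h4]
    · simp only; rw [h4]; exact h2
  have hXc : X.card = E.card := by
    rw [hX]
    apply card_image_of_injOn
    intro l hl l' hl' hll
    simp only [Prod.mk.injEq, and_true] at hll
    rw [← (hE2 l hl).2, ← (hE2 l' hl').2, ← (hβ l hl).2.1, ← (hβ l' hl').2.1, hll]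
  have hdist : ∀ x ∈ P, ∀ y ∈ X, val L x ≠ val L y := by
    intro x hx y hy hv
    obtain ⟨k1, k2, k3, k4, k0⟩ := hXm y hy
    obtain ⟨hx1, hx2⟩ := hP x hx
    simp only [RS.val] at hv
    obtain ⟨hd, z, hz, hL⟩ := h.eq x.1 x.2 y.1 y.2 hx1 hx2 k1 (by rw [k2]; exact ha₀) hv
    obtain ⟨k5, k6⟩ := hE _ k3
    have hx4 := k6 x hx (by rw [hd])
    have h5 := (hβ (L y.1.den) k3).2.2 x.1 hx1 (hd.trans k0)
    rw [k4] at h5
    rw [hd, k2] at hv
    have h6 : L y.1.den * y.1 - L y.1.den * x.1 = x.2 - a₀ := by linarith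
    rw [h6] at h5
    have h7 : |x.2| < |a₀| := hx4.trans_lt k5
    rcases abs_cases a₀ with ⟨h8, h9⟩ | ⟨h8, h9⟩
    · rw [h8] at h7
      rw [abs_lt] at h7
      have h10 : 0 < a₀ := by linarith [h7.1, h7.2]
      nlinarith [h7.1, h7.2]
    · rw [h8] at h7
      rw [abs_lt] at h7
      nlinarith [h7.1, h7.2]
  have hXinj : ∀ x ∈ X, ∀ y ∈ X, val L x = val L y → x = y := by
    intro x hx y hy hv
    obtain ⟨k1, k2, k3, k4, k0⟩ := hXm x hx
    obtain ⟨k1', k2', k3', k4', k0'⟩ := hXm y hy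
    simp only [RS.val] at hv
    obtain ⟨hd, -⟩ := h.eq x.1 x.2 y.1 y.2 k1 (by rw [k2]; exact ha₀) k1'
      (by rw [k2']; exact ha₀) hv
    refine Prod.ext ?_ (k2.trans k2'.symm)
    rw [← k4, ← k4', hd]
  have hdisj : Disjoint P X := by
    rw [disjoint_left]
    intro x hx hx'
    exact hdist x hx x hx' rfl
  have h1 := card_le A L (P ∪ X) (by
    intro x hx
    rcases mem_union.mp hx with hx | hx
    · exact ⟨(hP x hx).1, (hP x hx).2, h.mem _ (hP x hx).1⟩
    · obtain ⟨k1, k2, k3, k4, k0⟩ := hXm x hx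
      exact ⟨k1, by rw [k2]; exact ha₀, h.mem _ k1⟩) (by
    intro x hx y hy hv
    rcases mem_union.mp hx with hx | hx
    · rcases mem_union.mp hy with hy | hy
      · exact hinj x hx y hy hv
      · exact absurd hv (hdist x hx y hy)
    · rcases mem_union.mp hy with hy | hy
      · exact absurd hv.symm (hdist y hy x hx)
      · exact hXinj x hx y hy hv)
  rwa [card_union_of_disjoint hdisj, hXc] at h1

end

end Pool.Agent.Helper37.RG
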