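import Pool.Agent.Helper37.RG.Cross

/-!
# Dominated denominators: the inequality for each multiplier
-/

set_option autoImplicit false

namespace Pool.Agent.Helper37.RG

open Finset
open scoped Pointwise
open Pool.Agent.Helper37.RS (den_sub_one ar1 ar2 ar3)

section

variable {A : Finset ℚ} {q : ℕ} {L : ℕ → ℚ}

theorem am_eq (l : ℚ) : am A L l = (gr A L l).erase (-l) := by
  ext a
  simp only [mem_am, mem_erase, mem_gr]
  tauto

theorem Sg.neg_bo (h : Sg A q L) {l : ℚ} (hl : l ∈ dbig A L) (hm : -l ∈ A) :
    -l ∈ bo A L l ∧ 0 < l := by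
  have hl' := mem_dbig.mp hl
  have hLd := h.Ld hl'.1
  have hpos : 0 < l := by
    obtain ⟨b, hb, hbl⟩ := mem_mu.mp hl'.1
    rcases lt_trichotomy l 0 with h1 | h1 | h1
    · have := h.neg b hb (by rw [hbl]; exact h1)
      rw [hbl] at this
      exact absurd hm this
    · have h2 := hl'.2
      rw [h1, abs_zero] at h2
      linarith
    · exact h1
  refine ⟨mem_bo.mpr ⟨hm, by rw [Rat.neg_den, hLd.2], ?_⟩, hpos⟩
  intro h2
  have h3 := h.le _ h2
  rw [den_sub_one, Rat.neg_den, hLd.2, abs_of_pos hpos, abs_of_neg (by linarith)] at h3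
  linarith

/-- the number of elements without a step, if minus the multiplier is in the set -/
theorem Sg.two_le (h : Sg A q L) {l : ℚ} (hl : l ∈ dbig A L) (hm : -l ∈ A) :
    2 ≤ (up A L l).card + (bo A L l).card ∨
      ∃ n : ℕ, 0 < n ∧ l = n ∧ L 1 = l ∧ ∀ z : ℤ, (z : ℚ) ∈ A ↔ |z| ≤ (n : ℤ) := by
  classical
  have hl' := mem_dbig.mp hl
  have hLd := h.Ld hl'.1
  obtain ⟨hn, hpos⟩ := h.neg_bo hl hm
  by_cases hcon : 2 ≤ (up A L l).card + (bo A L l).card
  · exact Or.inl hcon
  right
  have hb1 : 1 ≤ (bo A L l).card := card_pos.mpr ⟨_, hn⟩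
  have hb : (bo A L l).card = 1 := by omega
  have hu : (up A L l).card = 0 := by omega
  have hbo : ∀ b ∈ bo A L l, b = -l := by
    obtain ⟨c, hc⟩ := card_eq_one.mp hb
    intro b hb'
    rw [hc, mem_singleton] at hn hb'
    rw [hb', hn]
  have hlg : l ∈ gr A L l := mem_gr.mpr hLd
  have hmg : -l ∈ gr A L l := mem_gr.mpr ⟨hm, by rw [Rat.neg_den, hLd.2]⟩
  have key : ∀ k : ℕ, (k : ℚ) ≤ 2 * l → l - k ∈ gr A L l := by
    intro k
    induction k with
    | zero =>
      intro _
      rw [Nat.cast_zero, sub_zero]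
      exact hlg
    | succ k ih =>
      intro hk
      push_cast at hk
      have ih := mem_gr.mp (ih (by linarith))
      by_contra hno
      have h5 : l - k ∈ bo A L l := by
        refine mem_bo.mpr ⟨ih.1, ih.2, ?_⟩
        intro h6
        apply hno
        have h7 : l - ((k + 1 : ℕ) : ℚ) = l - k - 1 := by push_cast; ring
        rw [h7]
        exact mem_gr.mpr ⟨h6, by rw [den_sub_one]; exact ih.2⟩
      have h6 := hbo _ h5
      linarith
  obtain ⟨z, hz⟩ := fract_int (one_class (by omega) hlg hmg)
  have hz' : 2 * l = z := by linarith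
  have hz0 : 0 < z := by
    have : (0 : ℚ) < z := by linarith
    exact_mod_cast this
  obtain ⟨m, rfl⟩ := Int.eq_ofNat_of_zero_le hz0.le
  rcases Nat.even_or_odd' m with ⟨n, hmn | hmn⟩
  · have hln : l = n := by
      rw [hmn] at hz'
      push_cast at hz'
      linarith
    have hn0 : 0 < n := by
      have : (0 : ℚ) < n := by rw [← hln]; exact hpos
      exact_mod_cast this
    have hL1 : L 1 = l := by
      have h1 := hLd.2
      rw [hln] at h1
      have h2 : ((n : ℚ)).den = 1 := Rat.den_natCast n
      rw [h2] at h1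
      rw [h1, hln]
    refine ⟨n, hn0, hln, hL1, fun z => ⟨fun hzA => ?_, fun hzn => ?_⟩⟩
    · have h3 := h.le _ hzA
      rw [Rat.den_intCast, hL1, hln] at h3
      have h4 : |z| ≤ |(n : ℤ)| := by exact_mod_cast h3
      rwa [Nat.abs_cast] at h4
    · rw [abs_le] at hzn
      have h8 := key (n - z).toNat (by
        rw [hln]
        have : ((n - z).toNat : ℤ) ≤ 2 * n := by omega
        exact_mod_cast this)
      have h9 : (((n : ℤ) - ((n - z).toNat : ℤ) : ℤ) : ℚ) = z := by
        have : ((n : ℤ) - ((n - z).toNat : ℤ)) = z := by omega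
        rw [this]
      rw [hln] at h8
      push_cast at h9
      rw [h9] at h8
      exact (mem_gr.mp h8).1
  · exfalso
    have hln : l = n + 1 / 2 := by
      rw [hmn] at hz'
      push_cast at hz'
      linarith
    have h1 := mem_gr.mp (key n (by rw [hln]; linarith [(Nat.cast_nonneg n : (0 : ℚ) ≤ n)]))
    have h2 := mem_gr.mp (key (n + 1) (by
      rw [hln]; push_cast; linarith [(Nat.cast_nonneg n : (0 : ℚ) ≤ n)]))
    have h3 : l - n ∈ up A L l := by
      refine mem_up.mpr ⟨h1.1, h1.2, ?_, ?_, ?_⟩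
      · have h4 : l - n - 1 = l - ((n + 1 : ℕ) : ℚ) := by push_cast; ring
        rw [h4]
        exact h2.1
      · rw [hln]; norm_num
      · rw [hln]; norm_num
    rw [card_eq_zero] at hu
    rw [hu] at h3
    exact notMem_empty _ h3

theorem Sg.am_ge (h : Sg A q L) {l : ℚ} (hl : l ∈ dbig A L)
    (hZ : -l ∈ A → 2 ≤ (up A L l).card + (bo A L l).card) :
    (st A L l).card + 1 ≤ (am A L l).card := by
  classical
  have hl' := mem_dbig.mp hl
  have hLd := h.Ld hl'.1
  have h1 := cls_card (A := A) (L := L) l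
  have h2 := one_le_bo (A := A) (L := L) l hl'.1
  by_cases hm : -l ∈ A
  · have h4 := hZ hm
    rw [am_eq, card_erase_of_mem (mem_gr.mpr ⟨hm, by rw [Rat.neg_den, hLd.2]⟩)]
    omega
  · rw [am_eq, erase_eq_of_notMem (fun h3 => hm (mem_gr.mp h3).1)]
    omega

theorem Sg.per (h : Sg A q L) {l : ℚ} (hl : l ∈ dbig A L)
    (hZ : -l ∈ A → 2 ≤ (up A L l).card + (bo A L l).card) :
    2 * (up A L l).card * (gset A L l).card + (st A L l).card * ((st A L l).card + 1) ≤
      (am A L l).card * (am A L l).card - (am A L l).card := by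
  classical
  have hl' := mem_dbig.mp hl
  have hLd := h.Ld hl'.1
  have h1 := cls_card (A := A) (L := L) l
  have h2 := one_le_bo (A := A) (L := L) l hl'.1
  have h3 := up_le_bo (A := A) (L := L) l
  have h4 := h.am_ge hl hZ
  rcases Nat.eq_zero_or_pos (up A L l).card with h0 | h0
  · rw [h0]
    have := ar3 _ _ h4
    omega
  rcases lt_or_ge l 0 with hneg | hpos
  · obtain ⟨b, hb, hbd⟩ := mem_mu.mp hl'.1
    have hm : -l ∉ A := by
      have := h.neg b hb
      rw [hbd] at this
      exact this hneg
    have h5 : am A L l = gr A L l := by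
      rw [am_eq, erase_eq_of_notMem (fun h3 => hm (mem_gr.mp h3).1)]
    have h6 : (gset A L l).card = (gr A L l).card - 1 := by
      rw [gset, if_pos hneg, card_erase_of_mem (mem_gr.mpr hLd)]
    rw [h5, h6]
    exact ar1 _ _ _ _ h1 h3 h0
  · have habs : |l| = l := abs_of_nonneg hpos
    have hL1 : 1 ≤ l := by rw [← habs]; exact hl'.2
    by_cases hc : -l ∈ A ∧ (bo A L l).card ≤ 1
    · rw [gset, if_neg (not_lt.mpr hpos), if_pos hc, card_empty]
      have := ar3 _ _ h4
      omega
    · rw [gset, if_neg (not_lt.mpr hpos), if_neg hc]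
      apply ar2
      · have h5 : insert l (up A L l) ⊆ (am A L l).filter (fun a => ¬ a ≤ 0) := by
          intro t ht
          rw [mem_insert] at ht
          rw [mem_filter, mem_am]
          rcases ht with rfl | ht
          · exact ⟨⟨hLd.1, hLd.2, by linarith⟩, by linarith⟩
          · rw [mem_up] at ht
            have := ht.2.2.2.2
            exact ⟨⟨ht.1, ht.2.1, by linarith⟩, by linarith⟩
        have h6 := card_le_card h5
        rw [card_insert_of_notMem] at h6
        · have h7 : ((am A L l).filter (fun a => a ≤ 0)).card +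
              ((am A L l).filter (fun a => ¬ a ≤ 0)).card = (am A L l).card :=
            card_filter_add_card_filter_not _
          omega
        · intro h7
          rw [mem_up] at h7
          linarith [h7.2.2.2.1]
      · by_cases hm : -l ∈ A
        · have h5 : 2 ≤ (bo A L l).card := by
            by_contra hcon
            exact hc ⟨hm, by omega⟩
          rw [am_eq, card_erase_of_mem (mem_gr.mpr ⟨hm, by rw [Rat.neg_den, hLd.2]⟩)]
          omega
        · rw [am_eq, erase_eq_of_notMem (fun h3 => hm (mem_gr.mp h3).1)]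
          omega

end

end Pool.Agent.Helper37.RG
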